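import Pool.Agent.H570.WS.Defs

set_option autoImplicit false

namespace Pool.Agent.H570.WS.A1

open Set Filter Topology

section gen
variable {T : Type*} [PartialOrder T]


theorem PS_split (c : T →₀ ℝ) (e : T) : PS c (Set.Iic e) = PS c (Set.Iio e) + c e := by
  classical
  have h1 : c e = ∑ x ∈ c.support, (if x = e then c x else 0) := by
    rw [Finset.sum_ite_eq']
    split_ifs with h
    · rfl
    · exact Finsupp.notMem_support_iff.1 h
  rw [h1]
  unfold PS Finsupp.sum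
  rw [← Finset.sum_add_distrib]
  refine Finset.sum_congr rfl fun x _ => ?_
  by_cases hx : x = e
  · subst hx
    simp
  · by_cases hle : x ≤ e
    · have hlt : x < e := lt_of_le_of_ne hle hx
      simp [hx, hle, hlt]
    · have hlt : ¬ x < e := fun h => hle h.le
      simp [hx, hle, hlt]

theorem LC_coeff (hT : ∀ a b c : T, a ≤ c → b ≤ c → a ≤ b ∨ b ≤ a) {k : ℕ} {c : T →₀ ℝ}
    (h : LC k c) (e : T) : |c e| ≤ 2 := by
  have h1 := h.sum (Set.Iic e) (fun a ha b hb => hT a b e ha hb) (fun a ha b hb => hb.trans ha)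
  have h2 := h.sum (Set.Iio e)
    (fun a ha b hb => hT a b e (le_of_lt ha) (le_of_lt hb)) (fun a ha b hb => lt_of_le_of_lt hb ha)
  have h3 := PS_split c e
  have h4 : c e = PS c (Set.Iic e) - PS c (Set.Iio e) := by linarith
  rw [h4]
  have := abs_sub (PS c (Set.Iic e)) (PS c (Set.Iio e))
  linarith

theorem LC_zero (k : ℕ) : LC k (0 : T →₀ ℝ) := by
  refine ⟨by simp, ?_⟩
  intro J _ _
  unfold PS
  rw [Finsupp.sum_zero_index]
  simp

theorem PS_neg (c : T →₀ ℝ) (J : Set T) : PS (-c) J = -PS c J := by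
  unfold PS Finsupp.sum
  rw [Finsupp.support_neg, ← Finset.sum_neg_distrib]
  refine Finset.sum_congr rfl fun x _ => ?_
  by_cases hx : x ∈ J <;> simp [hx]

theorem LC_neg {k : ℕ} {c : T →₀ ℝ} (h : LC k c) : LC k (-c) := by
  refine ⟨by rw [Finsupp.support_neg]; exact h.card, ?_⟩
  intro J h1 h2
  rw [PS_neg, abs_neg]
  exact h.sum J h1 h2

theorem Lam_zero (f : T → ℝ) : Lam (0 : T →₀ ℝ) f = 0 := by
  unfold Lam
  rw [Finsupp.sum_zero_index]

theorem Lam_neg (c : T →₀ ℝ) (f : T → ℝ) : Lam (-c) f = -Lam c f := by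
  unfold Lam Finsupp.sum
  rw [Finsupp.support_neg, ← Finset.sum_neg_distrib]
  refine Finset.sum_congr rfl fun x _ => ?_
  show (-c) x * f x = -(c x * f x)
  rw [Finsupp.neg_apply, neg_mul]

theorem Lam_add_right (c : T →₀ ℝ) (f g : T → ℝ) :
    Lam c (fun t => f t + g t) = Lam c f + Lam c g := by
  unfold Lam Finsupp.sum
  rw [← Finset.sum_add_distrib]
  exact Finset.sum_congr rfl fun x _ => mul_add _ _ _

theorem Lam_smul_right (c : T →₀ ℝ) (f : T → ℝ) (r : ℝ) :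
    Lam c (fun t => r * f t) = r * Lam c f := by
  unfold Lam Finsupp.sum
  rw [Finset.mul_sum]
  refine Finset.sum_congr rfl fun x _ => ?_
  ring

/-- JOB 1: basic bound. -/
theorem Lam_le (hT : ∀ a b c : T, a ≤ c → b ≤ c → a ≤ b ∨ b ≤ a) {k : ℕ} {c : T →₀ ℝ} (h : LC k c)
    {f : T → ℝ} {M : ℝ} (hM0 : 0 ≤ M) (hM : ∀ t, |f t| ≤ M) : |Lam c f| ≤ 2 * k * M := by
  unfold Lam Finsupp.sum
  have h1 : |∑ e ∈ c.support, c e * f e| ≤ ∑ _e ∈ c.support, 2 * M := by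
    refine (Finset.abs_sum_le_sum_abs _ _).trans ?_
    refine Finset.sum_le_sum fun e _ => ?_
    rw [abs_mul]
    exact mul_le_mul (LC_coeff hT h e) (hM e) (abs_nonneg _) (by norm_num)
  refine h1.trans ?_
  rw [Finset.sum_const, nsmul_eq_mul]
  have h2 : (c.support.card : ℝ) ≤ k := by exact_mod_cast h.card
  have h3 : (c.support.card : ℝ) * (2 * M) ≤ k * (2 * M) :=
    mul_le_mul_of_nonneg_right h2 (by positivity)
  linarith

theorem V_bdd (hT : ∀ a b c : T, a ≤ c → b ≤ c → a ≤ b ∨ b ≤ a) (k : ℕ)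
    {f : T → ℝ} {M : ℝ} (hM : ∀ t, |f t| ≤ M) : BddAbove {r | ∃ c : T →₀ ℝ, LC k c ∧ Lam c f = r} := by
  refine ⟨2 * k * max M 0, ?_⟩
  rintro r ⟨c, hc, rfl⟩
  exact (le_abs_self _).trans
    (Lam_le hT hc (le_max_right _ _) (fun t => (hM t).trans (le_max_left _ _)))

theorem V_nonneg (hT : ∀ a b c : T, a ≤ c → b ≤ c → a ≤ b ∨ b ≤ a) (k : ℕ)
    {f : T → ℝ} {M : ℝ} (hM : ∀ t, |f t| ≤ M) : 0 ≤ V k f :=
  le_csSup (V_bdd hT k hM) ⟨0, LC_zero k, Lam_zero f⟩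

theorem V_le (hT : ∀ a b c : T, a ≤ c → b ≤ c → a ≤ b ∨ b ≤ a) (k : ℕ)
    {f : T → ℝ} {M : ℝ} (hM0 : 0 ≤ M) (hM : ∀ t, |f t| ≤ M) : V k f ≤ 2 * k * M := by
  refine csSup_le ⟨0, 0, LC_zero k, Lam_zero f⟩ ?_
  rintro r ⟨c, hc, rfl⟩
  exact (le_abs_self _).trans (Lam_le hT hc hM0 hM)

theorem V_add (hT : ∀ a b c : T, a ≤ c → b ≤ c → a ≤ b ∨ b ≤ a) (k : ℕ)
    {f g : T → ℝ} {M M' : ℝ} (hM : ∀ t, |f t| ≤ M) (hM' : ∀ t, |g t| ≤ M') :
    V k (fun t => f t + g t) ≤ V k f + V k g := by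
  refine csSup_le ⟨0, 0, LC_zero k, Lam_zero _⟩ ?_
  rintro r ⟨c, hc, rfl⟩
  rw [Lam_add_right]
  exact add_le_add (le_csSup (V_bdd hT k hM) ⟨c, hc, rfl⟩)
    (le_csSup (V_bdd hT k hM') ⟨c, hc, rfl⟩)

theorem V_smul (hT : ∀ a b c : T, a ≤ c → b ≤ c → a ≤ b ∨ b ≤ a) (k : ℕ)
    {f : T → ℝ} {M : ℝ} (hM : ∀ t, |f t| ≤ M) (r : ℝ) :
    V k (fun t => r * f t) = |r| * V k f := by
  have hMr : ∀ t, |r * f t| ≤ |r| * M := by
    intro t
    rw [abs_mul]
    exact mul_le_mul_of_nonneg_left (hM t) (abs_nonneg r)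
  have habs : ∀ c : T →₀ ℝ, LC k c → |Lam c f| ≤ V k f := by
    intro c hc
    rw [abs_le]
    constructor
    · have h1 : Lam (-c) f ≤ V k f := le_csSup (V_bdd hT k hM) ⟨-c, LC_neg hc, rfl⟩
      rw [Lam_neg] at h1
      linarith
    · exact le_csSup (V_bdd hT k hM) ⟨c, hc, rfl⟩
  have habs' : ∀ c : T →₀ ℝ, LC k c → |Lam c (fun t => r * f t)| ≤ V k (fun t => r * f t) := by
    intro c hc
    rw [abs_le]
    constructor
    · have h1 : Lam (-c) (fun t => r * f t) ≤ V k (fun t => r * f t) :=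
        le_csSup (V_bdd hT k hMr) ⟨-c, LC_neg hc, rfl⟩
      rw [Lam_neg] at h1
      linarith
    · exact le_csSup (V_bdd hT k hMr) ⟨c, hc, rfl⟩
  apply le_antisymm
  · refine csSup_le ⟨0, 0, LC_zero k, Lam_zero _⟩ ?_
    rintro x ⟨c, hc, rfl⟩
    rw [Lam_smul_right]
    refine (le_abs_self _).trans ?_
    rw [abs_mul]
    exact mul_le_mul_of_nonneg_left (habs c hc) (abs_nonneg r)
  · by_cases hr : r = 0
    · rw [hr, abs_zero, zero_mul]
      have := V_nonneg hT k hMr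
      rw [hr] at this
      exact this
    · have hr' : 0 < |r| := abs_pos.2 hr
      rw [mul_comm, ← le_div_iff₀ hr']
      refine csSup_le ⟨0, 0, LC_zero k, Lam_zero _⟩ ?_
      rintro x ⟨c, hc, rfl⟩
      rw [le_div_iff₀ hr']
      have h1 := habs' c hc
      rw [Lam_smul_right, abs_mul] at h1
      have h2 : Lam c f * |r| ≤ |r| * |Lam c f| := by
        rw [mul_comm]
        exact mul_le_mul_of_nonneg_left (le_abs_self _) hr'.le
      linarith

end gen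

end Pool.Agent.H570.WS.A1
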