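import Pool.Agent.H570.WS.Defs

set_option autoImplicit false

namespace Pool.Agent.H570.WS.A10

open Set Filter Topology Pool.Agent.Helper570.Tree


theorem fs_mem (F : Finset Dt) (a : Dt → ℝ) : fs F a ∈ YD := by
  intro s _
  exact eP_nd_fs F a s

theorem chiT_mem {t : Node} (h : Dy t) : chiT t ∈ YD := by
  intro s hs
  rw [eP_nd_chiT, if_neg]
  intro hle
  apply hs
  intro c
  rcases lt_or_ge c s.len with hc | hc
  · rw [hle.2 c hc]; exact h c
  · rw [s.pad c hc]; exact Nat.zero_le _

theorem lift {z : Y} {b r : ℝ} (hb : 0 ≤ b) (h : ∀ s, |eP (.nd s) z| ≤ b) (hr : 0 < r) :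
    ∃ F : Finset Dt, ‖z - fs F (fun d => eP (.ct d) z)‖ ≤ b + r := by
  classical
  obtain ⟨E, hE, hn⟩ := near_node z z hr
  refine ⟨hE.toFinset, ?_⟩
  apply normY_le (by linarith)
  intro q
  cases q with
  | nd s =>
    rw [eP_sub, eP_nd_fs, sub_zero]
    exact (h s).trans (by linarith)
  | ct d =>
    by_cases hd : d ∈ hE.toFinset
    · rw [eP_sub, eP_ct_fs _ _ hd, sub_self, abs_zero]
      linarith
    · rw [eP_sub, eP_ct_fs_not _ _ hd, sub_zero]
      have hd2 : d ∉ E := fun h' => hd (hE.mem_toFinset.2 h')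
      rcases hn d hd2 with ⟨s, hs, _⟩ | ⟨hs, _⟩
      · have h1 := h s
        have h2 : |eP (.ct d) z| ≤ |eP (.ct d) z - eP (.nd s) z| + |eP (.nd s) z| := by
          have := abs_add_le (eP (.ct d) z - eP (.nd s) z) (eP (.nd s) z)
          rwa [sub_add_cancel] at this
        linarith
      · linarith

theorem fk_not {s : Node} (k : ℕ) : ∀ t : Node, ¬ t < s →
    fk k t s = fk 0 t s := by
  classical
  induction k with
  | zero => intro t _; rfl
  | succ k ih =>
    intro t ht
    have hc : ∀ i, ¬ child t i < s := fun i h => ht ((lt_child t i).trans h)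
    have he : ∀ i, (s ≤ child t i ↔ s ≤ t) := by
      intro i
      constructor
      · intro h
        by_contra h2
        have h3 := eq_child h h2
        apply ht
        rw [h3]
        exact lt_child t i
      · intro h
        exact h.trans (lt_child t i).le
    show (fk k (child t 0) s + fk k (child t 1) s) / 2 = fk 0 t s
    rw [ih _ (hc 0), ih _ (hc 1)]
    show ((if s ≤ child t 0 then (1:ℝ) else 0) + (if s ≤ child t 1 then (1:ℝ) else 0)) / 2 =
      if s ≤ t then (1:ℝ) else 0
    by_cases h : s ≤ t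
    · rw [if_pos ((he 0).2 h), if_pos ((he 1).2 h), if_pos h]; norm_num
    · rw [if_neg (fun h' => h ((he 0).1 h')), if_neg (fun h' => h ((he 1).1 h')), if_neg h]
      norm_num

theorem fk_step_all (k : ℕ) : ∀ t s : Node, |fk (k + 1) t s - fk k t s| ≤ (1 / 2) ^ (k + 1) := by
  classical
  induction k with
  | zero =>
    intro t s
    show |((if s ≤ child t 0 then (1:ℝ) else 0) + (if s ≤ child t 1 then (1:ℝ) else 0)) / 2 -
      (if s ≤ t then (1:ℝ) else 0)| ≤ (1 / 2) ^ (0 + 1)
    by_cases h : s ≤ t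
    · rw [if_pos (h.trans (lt_child t 0).le), if_pos (h.trans (lt_child t 1).le), if_pos h]
      norm_num
    · rw [if_neg h]
      by_cases h0 : s ≤ child t 0
      · have h1 : ¬ s ≤ child t 1 := by
          intro h1
          have e0 := eq_child h0 h
          have e1 := eq_child h1 h
          have := child_inj (t := t) (v := s) (n := 0) (m := 1) (le_of_eq e0.symm)
            (le_of_eq e1.symm)
          exact absurd this (by norm_num)
        rw [if_pos h0, if_neg h1]
        norm_num [abs_of_pos]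
      · rw [if_neg h0]
        by_cases h1 : s ≤ child t 1
        · rw [if_pos h1]; norm_num [abs_of_pos]
        · rw [if_neg h1]; norm_num
  | succ k ih =>
    intro t s
    have e : fk (k + 1 + 1) t s - fk (k + 1) t s =
        ((fk (k + 1) (child t 0) s - fk k (child t 0) s) +
          (fk (k + 1) (child t 1) s - fk k (child t 1) s)) / 2 := by
      show (fk (k + 1) (child t 0) s + fk (k + 1) (child t 1) s) / 2 -
        (fk k (child t 0) s + fk k (child t 1) s) / 2 = _
      ring
    rw [e]
    have hz : ∀ i, ¬ child t i < s → fk (k + 1) (child t i) s - fk k (child t i) s = 0 := by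
      intro i hi
      rw [fk_not (k + 1) _ hi, fk_not k _ hi, sub_self]
    have hp : (1 / 2 : ℝ) ^ (k + 1 + 1) = (1 / 2) ^ (k + 1) / 2 := by ring
    rw [hp, abs_div, abs_two]
    apply div_le_div_of_nonneg_right _ (by norm_num)
    by_cases h0 : child t 0 < s
    · have h1 : ¬ child t 1 < s := by
        intro h1
        have := child_inj h0.le h1.le
        exact absurd this (by norm_num)
      rw [hz 1 h1, add_zero]
      exact ih _ _
    · rw [hz 0 h0, zero_add]
      exact ih _ _

theorem fk_step (k : ℕ) (t s : Node) : |fk (k + 1) t s - fk k t s| ≤ (1 / 2) ^ (k + 1) := by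
  exact fk_step_all k t s

theorem dy_child {t : Node} (h : Dy t) {i : ℕ} (hi : i ≤ 1) : Dy (child t i) := by
  intro c
  show (if c = t.len then i else t.val c) ≤ 1
  split_ifs
  · exact hi
  · exact h c

/-- averages -/
noncomputable def gk : ℕ → Node → Y
  | 0, t => chiT t
  | k + 1, t => (1 / 2 : ℝ) • (gk k (child t 0) + gk k (child t 1))

theorem gk_mem (k : ℕ) : ∀ t : Node, Dy t → gk k t ∈ YD := by
  induction k with
  | zero => intro t ht; exact chiT_mem ht
  | succ k ih =>
    intro t ht
    exact YD.smul_mem _ (YD.add_mem (ih _ (dy_child ht (by norm_num)))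
      (ih _ (dy_child ht (by norm_num))))

theorem gk_eval (k : ℕ) : ∀ t s : Node, eP (.nd s) (gk k t) = fk k t s := by
  induction k with
  | zero => intro t s; exact eP_nd_chiT s t
  | succ k ih =>
    intro t s
    show eP (.nd s) ((1 / 2 : ℝ) • (gk k (child t 0) + gk k (child t 1))) =
      (fk k (child t 0) s + fk k (child t 1) s) / 2
    rw [eP_smul, eP_add, ih, ih]
    ring

theorem fk_tail (k : ℕ) (t s : Node) (m : ℕ) :
    |fk (k + m) t s - fk k t s| ≤ (1 / 2) ^ k - (1 / 2) ^ (k + m) := by
  induction m with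
  | zero => simp
  | succ m ih =>
    have h1 := fk_step_all (k + m) t s
    have h2 := abs_add_le (fk (k + m + 1) t s - fk (k + m) t s) (fk (k + m) t s - fk k t s)
    rw [sub_add_sub_cancel] at h2
    have h3 : (1 / 2 : ℝ) ^ (k + m + 1) = (1 / 2) ^ (k + m) / 2 := by ring
    show |fk (k + m + 1) t s - fk k t s| ≤ (1 / 2) ^ k - (1 / 2) ^ (k + m + 1)
    rw [h3] at h1 ⊢
    linarith

/-- the element with node part the dyadic mass function -/
theorem exists_y {u0 : Node} (hu : Dy u0) : ∃ y : YD, ∀ (k : ℕ) (s : Node),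
    |eP (.nd s) (y : Y) - fk k u0 s| ≤ (1 / 2) ^ k := by
  have hD : ∀ k s, |eP (.nd s) (gk (k + 1) u0 - gk k u0)| ≤ (1 / 2) ^ (k + 1) := by
    intro k s
    rw [eP_sub, gk_eval, gk_eval]
    exact fk_step_all k u0 s
  have hL : ∀ k : ℕ, ∃ F : Finset Dt, ‖(gk (k + 1) u0 - gk k u0) -
      fs F (fun d => eP (.ct d) (gk (k + 1) u0 - gk k u0))‖ ≤
        (1 / 2) ^ (k + 1) + (1 / 2) ^ (k + 1) := fun k =>
    lift (by positivity) (hD k) (by positivity)
  choose F hF using hL
  let D' : ℕ → Y := fun k => (gk (k + 1) u0 - gk k u0) -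
      fs (F k) (fun d => eP (.ct d) (gk (k + 1) u0 - gk k u0))
  have hD'n : ∀ k, ‖D' k‖ ≤ 1 * (1 / 2) ^ k := by
    intro k
    refine (hF k).trans (le_of_eq ?_)
    ring
  have hD'e : ∀ k s, eP (.nd s) (D' k) = fk (k + 1) u0 s - fk k u0 s := by
    intro k s
    show eP (.nd s) ((gk (k + 1) u0 - gk k u0) -
      fs (F k) (fun d => eP (.ct d) (gk (k + 1) u0 - gk k u0))) = _
    rw [eP_sub, eP_nd_fs, sub_zero, eP_sub, gk_eval, gk_eval]
  let S : ℕ → Y := fun n => chiT u0 + ∑ k ∈ Finset.range n, D' k
  have hS0 : S 0 = chiT u0 := by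
    show chiT u0 + ∑ k ∈ Finset.range 0, D' k = chiT u0
    rw [Finset.sum_range_zero, add_zero]
  have hS1 : ∀ n, S (n + 1) = S n + D' n := by
    intro n
    show chiT u0 + ∑ k ∈ Finset.range (n + 1), D' k = chiT u0 + ∑ k ∈ Finset.range n, D' k + D' n
    rw [Finset.sum_range_succ, add_assoc]
  have hSe : ∀ n s, eP (.nd s) (S n) = fk n u0 s := by
    intro n s
    induction n with
    | zero => rw [hS0]; exact eP_nd_chiT s u0
    | succ n ih => rw [hS1, eP_add, ih, hD'e]; ring
  have hC : CauchySeq S := by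
    apply cauchySeq_of_le_geometric (1 / 2) 1 (by norm_num)
    intro n
    rw [dist_eq_norm, hS1, sub_add_cancel_left, norm_neg]
    exact hD'n n
  obtain ⟨y, hy⟩ := cauchySeq_tendsto_of_complete hC
  have hev : ∀ s, Tendsto (fun n => fk n u0 s) atTop (𝓝 (eP (.nd s) y)) := by
    intro s
    have h1 := ((eP (.nd s)).continuous.tendsto y).comp hy
    refine h1.congr (fun n => ?_)
    exact hSe n s
  have hmem : y ∈ YD := by
    intro s hs
    have h1 : ∀ n, fk n u0 s = 0 := by
      intro n
      have h2 := gk_mem n u0 hu s hs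
      rwa [gk_eval] at h2
    have h3 := hev s
    simp only [h1] at h3
    exact tendsto_nhds_unique h3 tendsto_const_nhds
  refine ⟨⟨y, hmem⟩, fun k s => ?_⟩
  show |eP (.nd s) y - fk k u0 s| ≤ (1 / 2) ^ k
  have h1 : Tendsto (fun m => |fk (k + m) u0 s - fk k u0 s|) atTop
      (𝓝 |eP (.nd s) y - fk k u0 s|) := by
    have h2 : Tendsto (fun m : ℕ => k + m) atTop atTop :=
      tendsto_atTop_mono (fun m => Nat.le_add_left m k) tendsto_id
    exact (((hev s).comp h2).sub_const _).abs
  refine le_of_tendsto' h1 (fun m => ?_)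
  have h3 := fk_tail k u0 s m
  have h4 : (0 : ℝ) < (1 / 2) ^ (k + m) := by positivity
  linarith

end Pool.Agent.H570.WS.A10
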