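import Pool.Agent.H570.WS.Defs

set_option autoImplicit false

namespace Pool.Agent.H570.WS.A11

open Set Filter Topology Pool.Agent.Helper570.Tree



/-- dyadic truncation -/
noncomputable def dz541 (t : Node) : Node where
  len := t.len
  val := fun c => min (t.val c) 1
  pad := fun c hc => by rw [t.pad c hc]; simp

theorem dz541_dy (t : Node) : Dy (dz541 t) := fun _ => min_le_right _ _

theorem dz541_eq {t : Node} (h : Dy t) : dz541 t = t := by
  refine Node.ext rfl ?_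
  funext c
  exact min_eq_left (h c)

theorem dz541_mono {s t : Node} (h : s ≤ t) : dz541 s ≤ dz541 t :=
  ⟨h.1, fun c hc => by
    show min (s.val c) 1 = min (t.val c) 1
    rw [h.2 c hc]⟩

theorem Dy_of_le541 {s u : Node} (h : s ≤ u) (hu : Dy u) : Dy s := by
  intro c
  rcases lt_or_ge c s.len with hc | hc
  · rw [h.2 c hc]; exact hu c
  · rw [s.pad c hc]; exact Nat.zero_le _

theorem chiT_mem541 {u : Node} (hu : Dy u) : chiT u ∈ YD := by
  classical
  intro s hs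
  rw [eP_nd_chiT, if_neg]
  exact fun h => hs (Dy_of_le541 h hu)

theorem fs_mem541 (F : Finset Dt) (a : Dt → ℝ) : fs F a ∈ YD := fun s _ => eP_nd_fs F a s

/-- finite sums of code indicators as elements of `YD` -/
noncomputable def fsD541 (F : Finset Dt) (a : Dt → ℝ) : YD := ⟨fs F a, fs_mem541 F a⟩

theorem norm_fs541 (F : Finset Dt) (a : Dt → ℝ) : ‖fs F a‖ ≤ ∑ d ∈ F, |a d| := by
  unfold fs
  refine (norm_sum_le _ _).trans (Finset.sum_le_sum fun d _ => ?_)
  rw [norm_smul, Real.norm_eq_abs]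
  have h2 := norm_eD_le d
  have h4 := abs_nonneg (a d)
  nlinarith

theorem norm_fsD541 (F : Finset Dt) (a : Dt → ℝ) : ‖fsD541 F a‖ ≤ ∑ d ∈ F, |a d| :=
  norm_fs541 F a

/-- the set of norms -/
def GS541 (p : Seminorm ℝ YD) (F : Finset Dt) (σ : Dt → ℝ) (u : Node) : Set ℝ :=
  {r | ∃ z : YD, Cls u (z : Y) ∧ (∀ d ∈ F, eP (.ct d) (z : Y) = σ d) ∧ p z = r}

noncomputable def GG541 (p : Seminorm ℝ YD) (F : Finset Dt) (σ : Dt → ℝ) (u : Node) : ℝ :=
  sInf (GS541 p F σ u)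

theorem GS541_bdd (p : Seminorm ℝ YD) (F : Finset Dt) (σ : Dt → ℝ) (u : Node) :
    BddBelow (GS541 p F σ u) :=
  ⟨0, by rintro _ ⟨z, -, -, rfl⟩; exact apply_nonneg p z⟩

theorem GS541_mem {p : Seminorm ℝ YD} {C : ℝ} (hC : 0 ≤ C) (hp : ∀ x, p x ≤ C * ‖x‖)
    (F : Finset Dt) (σ : Dt → ℝ) {u : Node} (hu : Dy u) :
    ∃ r ∈ GS541 p F σ u, r ≤ C * (1 + ∑ d ∈ F, (|σ d| + 1)) := by
  refine ⟨_, ⟨(⟨chiT u, chiT_mem541 hu⟩ : YD) + fsD541 F (fun d => σ d - eP (.ct d) (chiT u)),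
    ?_, ?_, rfl⟩, ?_⟩
  · intro s _
    show eP (.nd s) (chiT u + fs F (fun d => σ d - eP (.ct d) (chiT u))) = _
    rw [eP_add, eP_nd_fs, add_zero]
  · intro d hd
    show eP (.ct d) (chiT u + fs F (fun d => σ d - eP (.ct d) (chiT u))) = _
    rw [eP_add, eP_ct_fs F _ hd]; ring
  · refine (hp _).trans (mul_le_mul_of_nonneg_left ?_ hC)
    refine (norm_add_le _ _).trans (add_le_add (norm_chiT_le u) ?_)
    refine (norm_fsD541 F _).trans (Finset.sum_le_sum fun d _ => ?_)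
    refine (abs_sub _ _).trans ?_
    have := (abs_eP_le (.ct d) (chiT u)).trans (norm_chiT_le u)
    linarith

theorem GG541_mono {p : Seminorm ℝ YD} {C : ℝ} (hC : 0 ≤ C) (hp : ∀ x, p x ≤ C * ‖x‖)
    (F : Finset Dt) (σ : Dt → ℝ) {u u' : Node} (h : u ≤ u') (hu' : Dy u') :
    GG541 p F σ u ≤ GG541 p F σ u' := by
  apply csInf_le_csInf (GS541_bdd p F σ u)
  · obtain ⟨r, hr, -⟩ := GS541_mem hC hp F σ hu'
    exact ⟨r, hr⟩
  · rintro _ ⟨z, h1, h2, rfl⟩
    exact ⟨z, Cls_mono h h1, h2, rfl⟩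

theorem stable541 {p : Seminorm ℝ YD} {C : ℝ} (hC : 0 ≤ C) (hp : ∀ x, p x ≤ C * ‖x‖) :
    ∃ t : Node, ∀ (F : Finset Dt) (s : Dt →₀ ℚ) (u : Node), t ≤ u →
      GG541 p F (fun d => (s d : ℝ)) (dz541 u) = GG541 p F (fun d => (s d : ℝ)) (dz541 t) := by
  obtain ⟨s0⟩ : Nonempty Node := by
    obtain ⟨b0⟩ : Nonempty W := inferInstance
    exact ⟨⟨b0, fun _ => 0, fun _ _ => rfl⟩⟩
  obtain ⟨idx, hidx⟩ := exists_surjective_nat (Finset Dt × (Dt →₀ ℚ))
  obtain ⟨t, -, ht⟩ := sigma_principle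
    (fun n t => ∀ u, t ≤ u → GG541 p (idx n).1 (fun d => ((idx n).2 d : ℝ)) (dz541 u)
      = GG541 p (idx n).1 (fun d => ((idx n).2 d : ℝ)) (dz541 t))
    (fun n s t hst h u hu => by rw [h u (hst.trans hu), h t hst]) s0
    (fun n s _ => by
      obtain ⟨t, h1, h2⟩ := mono_principle (Q := Node) (fun a b => a ≤ b) (fun _ => le_rfl)
        (fun _ _ _ => le_trans) exists_ub_node
        (fun u => GG541 p (idx n).1 (fun d => ((idx n).2 d : ℝ)) (dz541 u))
        (C * (1 + ∑ d ∈ (idx n).1, (|((idx n).2 d : ℝ)| + 1)))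
        (fun a b h => GG541_mono hC hp _ _ (dz541_mono h) (dz541_dy b))
        (fun a => by
          obtain ⟨r, hr, hr'⟩ := GS541_mem hC hp (idx n).1 (fun d => ((idx n).2 d : ℝ)) (dz541_dy a)
          exact (csInf_le (GS541_bdd p _ _ _) hr).trans hr') s
      exact ⟨t, h1, h2⟩)
  refine ⟨t, fun F s u hu => ?_⟩
  obtain ⟨n, hn⟩ := hidx (F, s)
  have := ht n u hu
  rw [hn] at this
  exact this

theorem stable2 {p : Seminorm ℝ YD} {C : ℝ} (hC : 0 ≤ C) (hp : ∀ x, p x ≤ C * ‖x‖) :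
    ∃ u0, Dy u0 ∧ Stb p u0 := by
  classical
  obtain ⟨t, ht⟩ := stable541 hC hp
  refine ⟨dz541 t, dz541_dy t, ?_⟩
  intro y hy u hu htu F η hη
  -- the node `u'` above `t`
  have hlen : t.len ≤ u.len := htu.1
  let u' : Node :=
    { len := u.len
      val := fun c => if c < t.len then t.val c else u.val c
      pad := fun c hc => by
        rw [if_neg (not_lt.2 (hlen.trans hc))]
        exact u.pad c hc }
  have htu' : t ≤ u' := ⟨hlen, fun c hc => by
    show t.val c = if c < t.len then t.val c else u.val c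
    rw [if_pos hc]⟩
  have hdu' : dz541 u' = u := by
    refine Node.ext rfl ?_
    funext c
    show min (if c < t.len then t.val c else u.val c) 1 = u.val c
    split_ifs with hc
    · exact htu.2 c hc
    · exact min_eq_left (hu c)
  have hstab : ∀ s : Dt →₀ ℚ, GG541 p F (fun d => (s d : ℝ)) u =
      GG541 p F (fun d => (s d : ℝ)) (dz541 t) := by
    intro s
    have := ht F s u' htu'
    rw [hdu'] at this
    exact this
  -- rational approximation
  set ε0 : ℝ := η / (4 * (C + 1) * ((F.card : ℝ) + 1)) with hε0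
  have hε0pos : 0 < ε0 := by rw [hε0]; positivity
  have hq : ∀ d : Dt, ∃ q : ℚ, |eP (.ct d) (y : Y) - q| < ε0 := fun d => exists_rat_near _ hε0pos
  choose q hq using hq
  let s : Dt →₀ ℚ := Finsupp.onFinset F (fun d => if d ∈ F then q d else 0)
    (by intro d hd; by_contra h; exact hd (if_neg h))
  have hs : ∀ d ∈ F, s d = q d := by
    intro d hd
    show (if d ∈ F then q d else 0) = q d
    rw [if_pos hd]
  have hsum : C * ∑ d ∈ F, |eP (.ct d) (y : Y) - (s d : ℝ)| ≤ η / 4 := by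
    have h1 : ∑ d ∈ F, |eP (.ct d) (y : Y) - (s d : ℝ)| ≤ F.card * ε0 := by
      rw [← nsmul_eq_mul]
      apply Finset.sum_le_card_nsmul
      intro d hd
      rw [hs d hd]
      exact (hq d).le
    have h2 : C * (F.card * ε0) ≤ (C + 1) * (((F.card : ℝ) + 1) * ε0) := by
      apply mul_le_mul (by linarith) _ (by positivity) (by linarith)
      apply mul_le_mul_of_nonneg_right (by linarith) hε0pos.le
    have h3 : (C + 1) * (((F.card : ℝ) + 1) * ε0) = η / 4 := by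
      rw [hε0]
      field_simp
    calc C * ∑ d ∈ F, |eP (.ct d) (y : Y) - (s d : ℝ)| ≤ C * (F.card * ε0) :=
          mul_le_mul_of_nonneg_left h1 hC
      _ ≤ _ := h2
      _ = _ := h3
  have hpf : ∀ a : Dt → ℝ, (∀ d ∈ F, |a d| = |eP (.ct d) (y : Y) - (s d : ℝ)|) →
      p (fsD541 F a) ≤ η / 4 := by
    intro a ha
    refine (hp _).trans (le_trans (mul_le_mul_of_nonneg_left (norm_fsD541 F a) hC) ?_)
    rw [Finset.sum_congr rfl ha]
    exact hsum
  have hG : GG541 p F (fun d => (s d : ℝ)) (dz541 t) ≤ p y + η / 4 := by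
    refine (csInf_le (GS541_bdd p _ _ _) ⟨y + fsD541 F (fun d => (s d : ℝ) - eP (.ct d) (y : Y)),
      ?_, ?_, rfl⟩).trans ?_
    · intro s' hs'
      show eP (.nd s') ((y : Y) + fs F (fun d => (s d : ℝ) - eP (.ct d) (y : Y))) = _
      rw [eP_add, eP_nd_fs, add_zero]
      exact hy s' hs'
    · intro d hd
      show eP (.ct d) ((y : Y) + fs F (fun d => (s d : ℝ) - eP (.ct d) (y : Y))) = _
      rw [eP_add, eP_ct_fs F _ hd]; ring
    · refine (map_add_le_add p _ _).trans ?_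
      have := hpf (fun d => (s d : ℝ) - eP (.ct d) (y : Y)) (fun d _ => abs_sub_comm _ _)
      linarith
  have hlt : GG541 p F (fun d => (s d : ℝ)) u < p y + η / 2 := by
    rw [hstab s]; linarith
  obtain ⟨r0, hr0, -⟩ := GS541_mem hC hp F (fun d => (s d : ℝ)) hu
  obtain ⟨_, ⟨z, hz1, hz2, rfl⟩, hz3⟩ := exists_lt_of_csInf_lt ⟨r0, hr0⟩ hlt
  refine ⟨z + fsD541 F (fun d => eP (.ct d) (y : Y) - (s d : ℝ)), ?_, ?_, ?_⟩
  · intro s' hs'
    show eP (.nd s') ((z : Y) + fs F (fun d => eP (.ct d) (y : Y) - (s d : ℝ))) = _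
    rw [eP_add, eP_nd_fs, add_zero]
    exact hz1 s' hs'
  · intro d hd
    show eP (.ct d) ((z : Y) + fs F (fun d => eP (.ct d) (y : Y) - (s d : ℝ))) = _
    rw [eP_add, eP_ct_fs F _ hd, hz2 d hd]; ring
  · refine (map_add_le_add p _ _).trans ?_
    have := hpf (fun d => eP (.ct d) (y : Y) - (s d : ℝ)) (fun d _ => rfl)
    linarith

end Pool.Agent.H570.WS.A11
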