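import Pool.Agent.H570.WS.Defs

set_option autoImplicit false

namespace Pool.Agent.H570.WS.A12

open Set Filter Topology Pool.Agent.Helper570.Tree



theorem levels_auxA (k : ℕ) : ∀ (t s : Node), ¬ t < s →
    fk k t s = eP (.nd s) (chiT t) := by
  classical
  induction k with
  | zero =>
    intro t s _
    rw [eP_nd_chiT]
    rfl
  | succ k ih =>
    intro t s hts
    have h : ∀ i, fk k (child t i) s = eP (.nd s) (chiT t) := by
      intro i
      have h1 : ¬ child t i < s := fun h2 => hts ((lt_child t i).trans h2)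
      rw [ih (child t i) s h1]
      exact (Cls_mono (lt_child t i).le (Cls_chiT (child t i))) s hts
    show (fk k (child t 0) s + fk k (child t 1) s) / 2 = _
    rw [h 0, h 1]
    ring

theorem levels {p : Seminorm ℝ YD} {c : ℝ} (hc : 0 < c) (hpl : ∀ x, c * ‖x‖ ≤ p x)
    (hdc : ∀ {t : Node} (h : Dy t) {i : ℕ} (hi : i ≤ 1), Dy (child t i))
    {u0 : Node} (hst : Stb p u0) {y : YD} (hy : Cls u0 (y : Y)) (k : ℕ) :
    ∀ t, Dy t → u0 ≤ t → ∀ (F : Finset Dt) (η : ℝ), 0 < η → η ≤ 1 →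
    ∃ z : YD, Cls t (z : Y) ∧ (∀ d ∈ F, eP (.ct d) (z : Y) = eP (.ct d) (y : Y)) ∧ p z ≤ p y + η ∧
      ∀ s, |eP (.nd s) (z : Y) - fk k t s| ≤ (1 / 2) ^ k * ((p y + 1) / c + 1) := by
  classical
  have hpy : 0 ≤ p y := apply_nonneg p y
  have hR : 0 ≤ (p y + 1) / c + 1 := by positivity
  induction k with
  | zero =>
    intro t ht hle F η hη hη1
    obtain ⟨z, h1, h2, h3⟩ := hst y hy t ht hle F η hη
    refine ⟨z, h1, h2, h3, ?_⟩
    intro s
    rw [pow_zero, one_mul]
    by_cases hts : t < s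
    · have h0 : fk 0 t s = 0 := by
        show (if s ≤ t then (1:ℝ) else 0) = 0
        rw [if_neg (not_le_of_gt hts)]
      rw [h0, sub_zero]
      have h4 : |eP (.nd s) (z : Y)| ≤ ‖(z : Y)‖ := abs_eP_le _ _
      have h5 : c * ‖(z : Y)‖ ≤ p z := hpl z
      have h6 : ‖(z : Y)‖ ≤ (p y + 1) / c := by
        rw [le_div_iff₀ hc]
        linarith
      linarith
    · rw [levels_auxA 0 t s hts, h1 s hts, sub_self, abs_zero]
      exact hR
  | succ k ih =>
    intro t ht hle F η hη hη1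
    obtain ⟨z0, a0, b0, c0, d0⟩ := ih (child t 0) (hdc ht (by norm_num)) (hle.trans (lt_child t 0).le) F η hη hη1
    obtain ⟨z1, a1, b1, c1, d1⟩ := ih (child t 1) (hdc ht le_rfl) (hle.trans (lt_child t 1).le) F η hη hη1
    have hz : ∀ P, eP P (((1 / 2 : ℝ) • (z0 + z1) : YD) : Y) = (1 / 2) * (eP P (z0 : Y) + eP P (z1 : Y)) := by
      intro P
      have e : (((1 / 2 : ℝ) • (z0 + z1) : YD) : Y) = (1 / 2 : ℝ) • ((z0 : Y) + (z1 : Y)) := rfl
      rw [e, eP_smul, eP_add]
    refine ⟨(1 / 2 : ℝ) • (z0 + z1), ?_, ?_, ?_, ?_⟩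
    · intro s hs
      rw [hz, Cls_mono (lt_child t 0).le a0 s hs, Cls_mono (lt_child t 1).le a1 s hs]
      ring
    · intro d hd
      rw [hz, b0 d hd, b1 d hd]
      ring
    · have h1 : p ((1 / 2 : ℝ) • (z0 + z1)) = (1 / 2) * p (z0 + z1) := by
        rw [map_smul_eq_mul]
        norm_num
      have h2 : p (z0 + z1) ≤ p z0 + p z1 := map_add_le_add p z0 z1
      rw [h1]
      linarith
    · intro s
      have hf : fk (k + 1) t s = (fk k (child t 0) s + fk k (child t 1) s) / 2 := rfl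
      rw [hz, hf]
      have e : (1 / 2 : ℝ) * (eP (.nd s) (z0 : Y) + eP (.nd s) (z1 : Y)) -
          (fk k (child t 0) s + fk k (child t 1) s) / 2 =
          (1 / 2) * (eP (.nd s) (z0 : Y) - fk k (child t 0) s) +
          (1 / 2) * (eP (.nd s) (z1 : Y) - fk k (child t 1) s) := by ring
      rw [e, pow_succ]
      by_cases h0 : child t 0 < s
      · have h1 : ¬ child t 1 < s := fun h => absurd (child_inj h0.le h.le) (by norm_num)
        rw [a1 s h1, levels_auxA k _ s h1, sub_self, mul_zero, add_zero, abs_mul,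
          abs_of_pos (by norm_num : (0:ℝ) < 1 / 2)]
        have := d0 s
        linarith
      · rw [a0 s h0, levels_auxA k _ s h0, sub_self, mul_zero, zero_add, abs_mul,
          abs_of_pos (by norm_num : (0:ℝ) < 1 / 2)]
        have := d1 s
        linarith

end Pool.Agent.H570.WS.A12
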