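import Pool.Agent.H570.WS.Defs

set_option autoImplicit false

namespace Pool.Agent.H570.WS.A13

open Set Filter Topology Pool.Agent.Helper570.Tree


/-- a point which is not strongly extreme -/
theorem not_se {p : Seminorm ℝ YD} {c C : ℝ} (hc : 0 < c) (hC : 0 ≤ C) (hp : ∀ x, p x ≤ C * ‖x‖)
    (hpl : ∀ x, c * ‖x‖ ≤ p x)
    (hdc : ∀ {t : Node} (h : Dy t) {i : ℕ} (hi : i ≤ 1), Dy (child t i))
    (hglide : ∀ {R δ : ℝ} (hδ : 0 < δ) (Z : Y → Prop)
      (hZ : ∀ F : Finset Dt, ∃ ζ, Z ζ ∧ (∀ d ∈ F, eP (.ct d) ζ = 0) ∧ ‖ζ‖ ≤ R ∧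
        ∀ s, |eP (.nd s) ζ| ≤ δ),
      ∃ ζ : ℕ → Y, (∀ n, Z (ζ n)) ∧ ∀ m : ℕ, ‖∑ n ∈ Finset.range m, ζ n‖ ≤ R + m * (2 * δ))
    {u0 : Node} (hu0 : Dy u0) {y : YD} (hy : Cls u0 (y : Y))
    (hyk : ∀ (k : ℕ) (s : Node), |eP (.nd s) (y : Y) - fk k u0 s| ≤ (1 / 2) ^ k)
    (hlev : ∀ (k : ℕ) (t : Node), Dy t → u0 ≤ t → ∀ (F : Finset Dt) (η : ℝ), 0 < η → η ≤ 1 →
      ∃ z : YD, Cls t (z : Y) ∧ (∀ d ∈ F, eP (.ct d) (z : Y) = eP (.ct d) (y : Y)) ∧ p z ≤ p y + η ∧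
        ∀ s, |eP (.nd s) (z : Y) - fk k t s| ≤ (1 / 2) ^ k * ((p y + 1) / c + 1)) :
    0 < p y ∧ ∀ ε : ℝ, 0 < ε → ∃ ψ : YD,
      p (y + ψ) ≤ p y + ε ∧ p (y - ψ) ≤ p y + ε ∧ c / 2 ≤ p ψ := by
  classical
  have hcn : ∀ x : YD, ‖(x : Y)‖ = ‖x‖ := fun x => rfl
  have hyv : eP (.nd u0) (y : Y) = 1 := by
    rw [hy u0 (lt_irrefl _), eP_nd_chiT, if_pos le_rfl]
  have hy1 : 1 ≤ ‖y‖ := by
    have := abs_eP_le (.nd u0) (y : Y)
    rw [hyv, abs_one] at this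
    exact this
  have hpy : 0 < p y := lt_of_lt_of_le (by nlinarith) (hpl y)
  refine ⟨hpy, fun ε hε => ?_⟩
  set η : ℝ := min 1 (ε / 2) with hη
  have hη0 : 0 < η := lt_min one_pos (half_pos hε)
  have hη1 : η ≤ 1 := min_le_left _ _
  have hη2 : η ≤ ε / 2 := min_le_right _ _
  set M : ℝ := (p y + 1) / c + 1 with hM
  have hMp : 0 < (p y + 1) / c := by positivity
  have hM1 : 1 ≤ M := by rw [hM]; linarith
  set R : ℝ := 2 * ((p y + 1) / c) with hR
  have hnorm : ∀ z : YD, p z ≤ p y + η → ‖z‖ ≤ (p y + 1) / c := by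
    intro z hz
    rw [le_div_iff₀ hc]
    have := hpl z
    linarith
  have hynorm : ‖y‖ ≤ (p y + 1) / c := by
    rw [le_div_iff₀ hc]
    have := hpl y
    linarith
  set δ : ℝ := ε / (8 * (C + 1)) with hδ
  have hδ0 : 0 < δ := by positivity
  obtain ⟨k, hk⟩ := exists_pow_lt_of_lt_one (show (0 : ℝ) < δ / (2 * M) by positivity)
    (show (1 / 2 : ℝ) < 1 by norm_num)
  have hk2 : 2 * ((1 / 2 : ℝ) ^ k * M) ≤ δ := by
    rw [lt_div_iff₀ (by positivity)] at hk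
    linarith
  obtain ⟨ζ, hζ1, hζ2⟩ := hglide (R := R) hδ0
    (fun ζ => ∃ z0 z1 : YD, Cls (child u0 0) (z0 : Y) ∧ Cls (child u0 1) (z1 : Y) ∧ p z0 ≤ p y + η ∧
      p z1 ≤ p y + η ∧ ζ = (1 / 2 : ℝ) • ((z0 : Y) + (z1 : Y)) - (y : Y))
    (by
      intro F
      obtain ⟨z0, a1, a2, a3, a4⟩ := hlev k (child u0 0) (hdc hu0 (by norm_num))
        (lt_child u0 0).le F η hη0 hη1
      obtain ⟨z1, b1, b2, b3, b4⟩ := hlev k (child u0 1) (hdc hu0 (by norm_num))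
        (lt_child u0 1).le F η hη0 hη1
      refine ⟨_, ⟨z0, z1, a1, b1, a3, b3, rfl⟩, ?_, ?_, ?_⟩
      · intro d hd
        rw [eP_sub, eP_smul, eP_add, a2 d hd, b2 d hd]; ring
      · have n1 := hnorm z0 a3
        have n2 := hnorm z1 b3
        have e1 := norm_sub_le ((1 / 2 : ℝ) • ((z0 : Y) + (z1 : Y))) (y : Y)
        have e2 := norm_add_le (z0 : Y) (z1 : Y)
        rw [norm_smul, Real.norm_of_nonneg (by norm_num)] at e1
        rw [hcn, hcn] at e2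
        rw [hcn y] at e1
        rw [hR]
        linarith
      · intro s
        have h0 := a4 s
        have h1 := b4 s
        have h2 := hyk (k + 1) s
        have h3 : fk (k + 1) u0 s = (fk k (child u0 0) s + fk k (child u0 1) s) / 2 := rfl
        rw [h3] at h2
        rw [eP_sub, eP_smul, eP_add]
        have h4 : (1 / 2 : ℝ) ^ (k + 1) ≤ (1 / 2 : ℝ) ^ k * M := by
          have h5 : (0 : ℝ) < (1 / 2 : ℝ) ^ k := by positivity
          rw [pow_succ]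
          nlinarith
        rw [abs_le] at h0 h1 h2 ⊢
        constructor <;> linarith [h0.1, h0.2, h1.1, h1.2, h2.1, h2.2])
  choose z1 z2 hz1 hz2 hp1 hp2 hζ using hζ1
  obtain ⟨m, hm⟩ := exists_nat_gt (R / δ)
  have hR0 : 0 ≤ R := by positivity
  have hm0 : (0 : ℝ) < m := lt_of_le_of_lt (by positivity) hm
  have hmR : R ≤ m * δ := by
    rw [div_lt_iff₀ hδ0] at hm
    exact hm.le
  set a : YD := (m : ℝ)⁻¹ • ∑ n ∈ Finset.range m, z1 n with ha
  set b : YD := (m : ℝ)⁻¹ • ∑ n ∈ Finset.range m, z2 n with hb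
  have hpavg : ∀ z : ℕ → YD, (∀ n, p (z n) ≤ p y + η) →
      p ((m : ℝ)⁻¹ • ∑ n ∈ Finset.range m, z n) ≤ p y + η := by
    intro z hz
    rw [map_smul_eq_mul, Real.norm_of_nonneg (by positivity), inv_mul_le_iff₀ hm0]
    refine (Finset.le_sum_of_subadditive p (map_zero p).le (map_add_le_add p) _ _).trans ?_
    refine (Finset.sum_le_card_nsmul _ _ (p y + η) fun n _ => hz n).trans ?_
    rw [Finset.card_range, nsmul_eq_mul]
  have hpa : p a ≤ p y + η := hpavg z1 hp1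
  have hpb : p b ≤ p y + η := hpavg z2 hp2
  set w : ℕ → YD := fun n => (1 / 2 : ℝ) • (z1 n + z2 n) - y with hw
  have hwζ : ∀ n, ((w n : YD) : Y) = ζ n := by
    intro n
    rw [hζ n]
    rfl
  have hmid : (1 / 2 : ℝ) • (a + b) - y = (m : ℝ)⁻¹ • ∑ n ∈ Finset.range m, w n := by
    have h1 : ∑ n ∈ Finset.range m, w n = (1 / 2 : ℝ) • (∑ n ∈ Finset.range m, z1 n +
        ∑ n ∈ Finset.range m, z2 n) - (m : ℝ) • y := by
      rw [← Finset.sum_add_distrib, Finset.smul_sum]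
      simp only [hw]
      rw [Finset.sum_sub_distrib, Finset.sum_const,
        Finset.card_range, Nat.cast_smul_eq_nsmul]
    have h2 : (m : ℝ)⁻¹ • ((m : ℝ) • y) = y := by
      rw [smul_smul, inv_mul_cancel₀ hm0.ne', one_smul]
    rw [h1, smul_sub, h2, ha, hb]
    module
  have hwn : ‖∑ n ∈ Finset.range m, w n‖ ≤ R + m * (2 * δ) := by
    have h1 := hζ2 m
    have h2 : ((∑ n ∈ Finset.range m, w n : YD) : Y) = ∑ n ∈ Finset.range m, ζ n := by
      rw [Submodule.coe_sum]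
      exact Finset.sum_congr rfl (fun n _ => hwζ n)
    rw [← hcn, h2]
    exact h1
  have hmidn : p ((1 / 2 : ℝ) • (a + b) - y) ≤ ε / 2 := by
    refine (hp _).trans ?_
    have h1 : ‖(1 / 2 : ℝ) • (a + b) - y‖ ≤ 3 * δ := by
      rw [hmid, norm_smul, norm_inv, Real.norm_of_nonneg hm0.le, inv_mul_le_iff₀ hm0]
      linarith
    have h2 : C * (3 * δ) ≤ ε / 2 := by
      rw [hδ]
      have : C * (3 * (ε / (8 * (C + 1)))) = (3 * ε / 8) * (C / (C + 1)) := by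
        field_simp
      rw [this]
      have h3 : C / (C + 1) ≤ 1 := (div_le_one (by linarith)).2 (by linarith)
      have h4 : 0 ≤ C / (C + 1) := by positivity
      nlinarith
    exact (mul_le_mul_of_nonneg_left h1 hC).trans h2
  refine ⟨(1 / 2 : ℝ) • (a - b), ?_, ?_, ?_⟩
  · have h1 : y + (1 / 2 : ℝ) • (a - b) = a - ((1 / 2 : ℝ) • (a + b) - y) := by module
    rw [h1]
    have h2 := map_sub_le_add p a ((1 / 2 : ℝ) • (a + b) - y)
    linarith
  · have h1 : y - (1 / 2 : ℝ) • (a - b) = b - ((1 / 2 : ℝ) • (a + b) - y) := by module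
    rw [h1]
    have h2 := map_sub_le_add p b ((1 / 2 : ℝ) • (a + b) - y)
    linarith
  · have hco : ∀ z : ℕ → YD, (((m : ℝ)⁻¹ • ∑ n ∈ Finset.range m, z n : YD) : Y) =
        (m : ℝ)⁻¹ • ∑ n ∈ Finset.range m, (z n : Y) := by
      intro z
      rw [Submodule.coe_smul, Submodule.coe_sum]
    have hva : eP (.nd (child u0 0)) (a : Y) = 1 := by
      rw [ha, hco, eP_smul, map_sum, Finset.sum_congr rfl (g := fun _ => (1 : ℝ))]
      · rw [Finset.sum_const, Finset.card_range, nsmul_eq_mul, mul_one, inv_mul_cancel₀ hm0.ne']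
      · intro n _
        rw [hz1 n _ (lt_irrefl _), eP_nd_chiT, if_pos le_rfl]
    have hvb : eP (.nd (child u0 0)) (b : Y) = 0 := by
      rw [hb, hco, eP_smul, map_sum, Finset.sum_eq_zero, mul_zero]
      intro n _
      have h01 : ¬ child u0 0 ≤ child u0 1 := fun h =>
        absurd (child_inj h (le_refl (child u0 1))) (by norm_num)
      rw [hz2 n _ (fun h => ?_), eP_nd_chiT, if_neg h01]
      exact absurd (child_inj h.le (le_refl (child u0 0))) (by norm_num)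
    have h1 : |eP (.nd (child u0 0)) (((1 / 2 : ℝ) • (a - b) : YD) : Y)| = 1 / 2 := by
      have e : (((1 / 2 : ℝ) • (a - b) : YD) : Y) = (1 / 2 : ℝ) • ((a : Y) - (b : Y)) := rfl
      rw [e, eP_smul, eP_sub, hva, hvb]; norm_num
    have h2 := abs_eP_le (.nd (child u0 0)) (((1 / 2 : ℝ) • (a - b) : YD) : Y)
    rw [h1, hcn] at h2
    have h3 := hpl ((1 / 2 : ℝ) • (a - b))
    nlinarith

end Pool.Agent.H570.WS.A13
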