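import Pool.Agent.H570.WS.Defs

set_option autoImplicit false

namespace Pool.Agent.H570.WS.A14

open Set Filter Topology Pool.Agent.Helper570.Tree


theorem appr_Y (y : Y) : ∀ δ : ℝ, 0 < δ → ∃ A : Node →₀ ℝ, ∀ s : Node,
    |eP (.nd s) y - A.sum (fun t a => open Classical in if s ≤ t then a else 0)| ≤ δ := by
  intro δ hδ
  have hmem : inc (qY y) ∈
      closure ((Submodule.span ℝ (Set.range chiB) : Submodule ℝ B) : Set B) := (qY y).2
  obtain ⟨g, hg, hfg⟩ := Metric.mem_closure_iff.1 hmem δ hδ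
  obtain ⟨A, hA⟩ := (Finsupp.mem_span_range_iff_exists_finsupp).mp hg
  refine ⟨A, fun s => ?_⟩
  have h1 : (A.sum (fun t a => open Classical in if s ≤ t then a else 0)) = g s := by
    rw [← hA]
    unfold Finsupp.sum
    rw [BoundedContinuousFunction.coe_sum, Finset.sum_apply]
    refine Finset.sum_congr rfl fun t _ => ?_
    show _ = A t • (chiB t s)
    rw [chiB_apply, smul_eq_mul]
    by_cases h : s ≤ t
    · rw [if_pos h, mul_one]
      exact if_pos h
    · rw [if_neg h, mul_zero]
      exact if_neg h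
  rw [h1, ← ev_qY]
  have h2 : ev s (qY y) - g s = (inc (qY y) - g) s := rfl
  rw [h2, ← Real.norm_eq_abs]
  refine ((inc (qY y) - g).norm_coe_le_norm s).trans ?_
  rw [← dist_eq_norm]
  exact hfg.le

end Pool.Agent.H570.WS.A14
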