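import Pool.Agent.H570.WS.Defs

set_option autoImplicit false

namespace Pool.Agent.H570.WS.A15

open Set Filter Topology Pool.Agent.Helper570.Tree



/-- the least upper bound of a bounded chain of nodes -/
theorem exists_lub (I : Set Node) (hne : I.Nonempty) (u : Node) (hu : ∀ r ∈ I, r ≤ u) :
    ∃ l, IsLUB I l := by
  have hS : ({c : W | ∀ r ∈ I, r.len ≤ c} : Set W).Nonempty := ⟨u.len, fun r hr => (hu r hr).1⟩
  obtain ⟨lam, hlam, hmin⟩ : ∃ lam, lam ∈ ({c : W | ∀ r ∈ I, r.len ≤ c} : Set W) ∧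
      ∀ c ∈ ({c : W | ∀ r ∈ I, r.len ≤ c} : Set W), lam ≤ c := by
    refine ⟨WellFounded.min (wellFounded_lt : WellFounded ((· < ·) : W → W → Prop)) _ hS,
      WellFounded.min_mem _ _ hS, fun c hc => ?_⟩
    exact not_lt.mp (WellFounded.not_lt_min _ _ hc)
  have hlu : lam ≤ u.len := hmin _ (fun r hr => (hu r hr).1)
  refine ⟨res u lam, ?_, ?_⟩
  · intro r hr
    exact le_of_le_of_len (hu r hr) (res_le hlu) (hlam r hr)
  · intro v hv
    refine ⟨hmin _ (fun r hr => (hv hr).1), ?_⟩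
    intro c hc
    have hc' : c < lam := hc
    obtain ⟨r, hr, hrc⟩ : ∃ r ∈ I, c < r.len := by
      by_contra hcon
      push Not at hcon
      exact absurd (hmin c hcon) (not_le.mpr hc')
    have h1 : (res u lam).val c = u.val c := by
      simp only [res]; rw [if_pos hc']
    rw [h1, ← (hu r hr).2 c hrc]
    exact (hv hr).2 c hrc

theorem sel_node_child_le {r v : Node} (h : r < v) : child r (v.val r.len) ≤ v := by
  refine ⟨Order.succ_le_of_lt (len_lt h), ?_⟩
  intro c hc
  have hc' : c ≤ r.len := Order.le_of_lt_succ hc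
  simp only [child]
  by_cases h1 : c = r.len
  · rw [if_pos h1, h1]
  · rw [if_neg h1]
    exact h.le.2 c (lt_of_le_of_ne hc' h1)

theorem sel_node_bot : ∃ r0 : Node, ∀ v : Node, r0 ≤ v := by
  obtain ⟨m, hm⟩ : ∃ m : W, ∀ c : W, ¬ c < m := by
    refine ⟨WellFounded.min (wellFounded_lt : WellFounded ((· < ·) : W → W → Prop)) Set.univ
      Set.univ_nonempty, fun c => ?_⟩
    exact WellFounded.not_lt_min _ _ (Set.mem_univ _)
  refine ⟨⟨m, fun _ => 0, fun _ _ => rfl⟩, fun v => ⟨not_lt.mp (hm _), ?_⟩⟩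
  intro c hc
  exact absurd hc (hm c)

theorem sel_node {α : Type*} (U : Ultrafilter α) (t : α → Node) (hDy : ∀ᶠ a in (U : Filter α), Dy (t a))
    (hne : ∀ r, ∀ᶠ a in (U : Filter α), t a ≠ r) : Sel U t := by
  intro E
  obtain ⟨r0, hr0⟩ := sel_node_bot
  -- the chain `I`
  have hI0 : r0 ∈ {r : Node | ∀ᶠ a in (U : Filter α), r ≤ t a} :=
    Filter.Eventually.of_forall fun a => hr0 _
  have hcomp : ∀ r ∈ {r : Node | ∀ᶠ a in (U : Filter α), r ≤ t a},
      ∀ r' ∈ {r : Node | ∀ᶠ a in (U : Filter α), r ≤ t a}, r ≤ r' ∨ r' ≤ r := by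
    intro r hr r' hr'
    obtain ⟨a, h1, h2⟩ := (Filter.Eventually.and hr hr').exists
    exact comparable h1 h2
  have hnomax : ∀ r ∈ {r : Node | ∀ᶠ a in (U : Filter α), r ≤ t a},
      ∃ r' ∈ {r : Node | ∀ᶠ a in (U : Filter α), r ≤ t a}, r < r' := by
    intro r hr
    have h1 : ∀ᶠ a in (U : Filter α), child r 0 ≤ t a ∨ child r 1 ≤ t a := by
      filter_upwards [hr, hne r, hDy] with a ha1 ha2 ha3
      have h2 : r < t a := lt_of_le_of_ne ha1 (Ne.symm ha2)
      have h3 := sel_node_child_le h2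
      have h4 := ha3 r.len
      rcases Nat.le_one_iff_eq_zero_or_eq_one.mp h4 with h5 | h5
      · left; rwa [h5] at h3
      · right; rwa [h5] at h3
    rcases Ultrafilter.eventually_or.mp h1 with h2 | h2
    · exact ⟨child r 0, h2, lt_child r 0⟩
    · exact ⟨child r 1, h2, lt_child r 1⟩
  have hx : ∃ x ∈ {r : Node | ∀ᶠ a in (U : Filter α), r ≤ t a}, ∀ e ∈ E, x ≤ e →
      e ∈ upperBounds {r : Node | ∀ᶠ a in (U : Filter α), r ≤ t a} := by
    classical
    induction E using Finset.induction_on with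
    | empty => exact ⟨r0, hI0, fun e he => absurd he (Finset.notMem_empty e)⟩
    | insert e E _ ih =>
      obtain ⟨x, hxI, hx⟩ := ih
      by_cases he : e ∈ upperBounds {r : Node | ∀ᶠ a in (U : Filter α), r ≤ t a}
      · refine ⟨x, hxI, fun e' he' hxe' => ?_⟩
        rcases Finset.mem_insert.mp he' with rfl | h
        · exact he
        · exact hx e' h hxe'
      · obtain ⟨r, hrI, hre⟩ : ∃ r ∈ {r : Node | ∀ᶠ a in (U : Filter α), r ≤ t a}, ¬ r ≤ e := by
          by_contra hcon
          push Not at hcon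
          exact he hcon
        rcases hcomp x hxI r hrI with hxr | hxr
        · refine ⟨r, hrI, fun e' he' hxe' => ?_⟩
          rcases Finset.mem_insert.mp he' with rfl | h
          · exact absurd hxe' hre
          · exact hx e' h (hxr.trans hxe')
        · refine ⟨x, hxI, fun e' he' hxe' => ?_⟩
          rcases Finset.mem_insert.mp he' with rfl | h
          · exact absurd (hxr.trans hxe') hre
          · exact hx e' h hxe'
  obtain ⟨x, hxI, hx⟩ := hx
  refine ⟨x, ?_, ?_⟩
  · have hxI' : ∀ᶠ a in (U : Filter α), x ≤ t a := hxI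
    filter_upwards [hxI', hne x] with a h1 h2
    exact lt_of_le_of_ne h1 (Ne.symm h2)
  · by_cases hall : ∀ e ∈ E, ¬ x ≤ e
    · exact Or.inl hall
    · right
      push Not at hall
      obtain ⟨e, heE, hxe⟩ := hall
      obtain ⟨r, hr⟩ := exists_lub {r : Node | ∀ᶠ a in (U : Filter α), r ≤ t a} ⟨r0, hI0⟩ e
        (hx e heE hxe)
      obtain ⟨x', hx'I, hxx'⟩ := hnomax x hxI
      have hrI : ¬ (∀ᶠ a in (U : Filter α), r ≤ t a) := by
        intro hrI
        obtain ⟨r', hr'I, hrr'⟩ := hnomax r hrI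
        exact absurd (hr.1 hr'I) (not_le_of_gt hrr')
      have hrI' : ∀ᶠ a in (U : Filter α), ¬ r ≤ t a := Ultrafilter.eventually_not.mpr hrI
      refine ⟨r, lt_of_lt_of_le hxx' (hr.1 hx'I), fun e' he' hxe' => hr.2 (hx e' he' hxe'), ?_⟩
      by_cases hle : ∀ᶠ a in (U : Filter α), t a ≤ r
      · left
        filter_upwards [hle, hne r] with a h1 h2
        exact lt_of_le_of_ne h1 h2
      · right
        have hle' : ∀ᶠ a in (U : Filter α), ¬ t a ≤ r := Ultrafilter.eventually_not.mpr hle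
        filter_upwards [hle', hrI'] with a h1 h2
        exact ⟨h1, h2⟩


end Pool.Agent.H570.WS.A15
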