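import Pool.Agent.H570.WS.Nrm

set_option autoImplicit false

namespace Pool.Agent.H570.WS.A16

open Set Filter Topology Pool.Agent.Helper570.Tree


/-- JOB A (Kadec seminorm): facts on V given. -/
theorem Kf_facts
    (hV0 : ∀ (k : ℕ) {f : Node → ℝ} {M : ℝ} (hM : ∀ t, |f t| ≤ M), 0 ≤ V k f)
    (hVle : ∀ (k : ℕ) {f : Node → ℝ} {M : ℝ} (hM : ∀ t, |f t| ≤ M), V k f ≤ 2 * k * M)
    (hVadd : ∀ (k : ℕ) {f g : Node → ℝ} {M M' : ℝ} (hM : ∀ t, |f t| ≤ M) (hM' : ∀ t, |g t| ≤ M'),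
      V k (fun t => f t + g t) ≤ V k f + V k g)
    (hVsmul : ∀ (k : ℕ) {f : Node → ℝ} {M : ℝ} (hM : ∀ t, |f t| ≤ M) (r : ℝ),
      V k (fun t => r * f t) = |r| * V k f) :
    (∀ y, Summable fun k => wk k * V k (nq y)) ∧ (∀ y, 0 ≤ Kf y) ∧ (∀ y, Kf y ≤ 2 * ‖y‖) ∧
    (∀ x y, Kf (x + y) ≤ Kf x + Kf y) ∧ (∀ (r : ℝ) y, Kf (r • y) = |r| * Kf y) := by
  have hs : ∀ y, Summable fun k => wk k * V k (nq y) := by
    intro y
    refine Summable.of_nonneg_of_le (fun k => mul_nonneg (wk_pos k).le (hV0 k (nq_le y)))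
      (fun k => ?_) (wk_sum.mul_right ‖y‖)
    have h1 := hVle k (nq_le y)
    have h2 : V k (nq y) ≤ (2 * k + 1) * ‖y‖ := by
      have := norm_nonneg y
      linarith
    calc wk k * V k (nq y) ≤ wk k * ((2 * k + 1) * ‖y‖) :=
          mul_le_mul_of_nonneg_left h2 (wk_pos k).le
      _ = wk k * (2 * k + 1) * ‖y‖ := by ring
  refine ⟨hs, fun y => tsum_nonneg fun k => mul_nonneg (wk_pos k).le (hV0 k (nq_le y)),
    fun y => ?_, fun x y => ?_, fun r y => ?_⟩
  · have h : (fun k : ℕ => wk k * (2 * k + 1)) = fun k : ℕ => (1 / 2 : ℝ) ^ k := by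
      funext k
      unfold wk
      have : (0 : ℝ) < 2 * k + 1 := by positivity
      field_simp
    have h3 : ∑' k : ℕ, wk k * (2 * k + 1) * ‖y‖ = 2 * ‖y‖ := by
      rw [tsum_mul_right, h, tsum_geometric_two]
    unfold Kf
    rw [← h3]
    refine (hs y).tsum_le_tsum (fun k => ?_) (wk_sum.mul_right ‖y‖)
    have h1 := hVle k (nq_le y)
    have h2 : V k (nq y) ≤ (2 * k + 1) * ‖y‖ := by
      have := norm_nonneg y
      linarith
    calc wk k * V k (nq y) ≤ wk k * ((2 * k + 1) * ‖y‖) :=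
          mul_le_mul_of_nonneg_left h2 (wk_pos k).le
      _ = wk k * (2 * k + 1) * ‖y‖ := by ring
  · have e : nq (x + y) = fun s => nq x s + nq y s := by
      funext s
      exact eP_add _ _ _
    unfold Kf
    rw [← (hs x).tsum_add (hs y)]
    refine (hs (x + y)).tsum_le_tsum (fun k => ?_) ((hs x).add (hs y))
    rw [e, ← mul_add]
    exact mul_le_mul_of_nonneg_left (hVadd k (nq_le x) (nq_le y)) (wk_pos k).le
  · have e : nq (r • y) = fun s => r * nq y s := by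
      funext s
      exact eP_smul _ _ _
    unfold Kf
    rw [← tsum_mul_left]
    congr 1
    funext k
    rw [e, hVsmul k (nq_le y) r]
    ring

end Pool.Agent.H570.WS.A16
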