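import Pool.Agent.H570.WS.Defs

set_option autoImplicit false

namespace Pool.Agent.H570.WS.A17

open Set Filter Topology Pool.Agent.Helper570.Tree


theorem tends_all {α : Type*} (l : Filter α) (v : α → Y) (v0 : Y) (M : ℝ) (hb : ∀ a, ‖v a‖ ≤ M)
    (h : ∀ z, Tendsto (fun a => eP z (v a)) l (𝓝 (eP z v0))) (ξ : Y →L[ℝ] ℝ) :
    Tendsto (fun a => ξ (v a)) l (𝓝 (ξ v0)) := by
  have hspan : ∀ φ ∈ Submodule.span ℝ (Set.range eP),
      Tendsto (fun a => φ (v a)) l (𝓝 (φ v0)) := by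
    intro φ hφ
    induction hφ using Submodule.span_induction with
    | mem x hx =>
      obtain ⟨z, rfl⟩ := hx
      exact h z
    | zero =>
      simp only [ContinuousLinearMap.zero_apply]
      exact tendsto_const_nhds
    | add x y _ _ hx hy =>
      simp only [ContinuousLinearMap.add_apply]
      exact hx.add hy
    | smul c x _ hx =>
      simp only [ContinuousLinearMap.smul_apply]
      exact hx.const_smul c
  have hmem : ξ ∈ closure ((Submodule.span ℝ (Set.range eP) : Submodule ℝ (Y →L[ℝ] ℝ)) : Set (Y →L[ℝ] ℝ)) := by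
    have h1 := dualY ξ
    unfold DDY at h1
    rw [← Submodule.topologicalClosure_coe]
    exact h1
  rw [Metric.tendsto_nhds]
  intro ε hε
  set M' : ℝ := max M ‖v0‖ with hM'
  have hM0 : 0 ≤ M' := le_trans (norm_nonneg v0) (le_max_right _ _)
  have hδ : 0 < ε / (3 * (M' + 1)) := by positivity
  obtain ⟨φ, hφ, hd⟩ := Metric.mem_closure_iff.mp hmem _ hδ
  have hclose : ∀ x : Y, ‖x‖ ≤ M' → |ξ x - φ x| ≤ ε / 3 := by
    intro x hx
    have h1 : |ξ x - φ x| ≤ ‖ξ - φ‖ * ‖x‖ := by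
      have := (ξ - φ).le_opNorm x
      rwa [ContinuousLinearMap.sub_apply, Real.norm_eq_abs] at this
    rw [dist_eq_norm] at hd
    have h2 : ‖ξ - φ‖ * ‖x‖ ≤ ε / (3 * (M' + 1)) * (M' + 1) :=
      mul_le_mul hd.le (by linarith) (norm_nonneg _) hδ.le
    have h3 : ε / (3 * (M' + 1)) * (M' + 1) = ε / 3 := by
      have : M' + 1 ≠ 0 := by positivity
      field_simp
    linarith
  have hev := (Metric.tendsto_nhds.mp (hspan φ hφ)) (ε / 3) (by positivity)
  filter_upwards [hev] with a ha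
  rw [Real.dist_eq] at ha ⊢
  have e1 := hclose (v a) ((hb a).trans (le_max_left _ _))
  have e2 := hclose v0 (le_max_right _ _)
  have e3 : ξ (v a) - ξ v0 = (ξ (v a) - φ (v a)) + (φ (v a) - φ v0) + (φ v0 - ξ v0) := by ring
  rw [e3]
  have e4 : |φ v0 - ξ v0| ≤ ε / 3 := by rw [abs_sub_comm]; exact e2
  calc |(ξ (v a) - φ (v a)) + (φ (v a) - φ v0) + (φ v0 - ξ v0)|
      ≤ |(ξ (v a) - φ (v a)) + (φ (v a) - φ v0)| + |φ v0 - ξ v0| := abs_add_le _ _
    _ ≤ |ξ (v a) - φ (v a)| + |φ (v a) - φ v0| + |φ v0 - ξ v0| := by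
        gcongr
        exact abs_add_le _ _
    _ < ε := by linarith

theorem rot_lsc {α : Type*} (l : Filter α) (v : α → Y) (v0 : Y) (M : ℝ) (hb : ∀ a, ‖v a‖ ≤ M)
    (h : ∀ z, Tendsto (fun a => eP z (v a)) l (𝓝 (eP z v0))) (η : ℝ) (hη : 0 < η) :
    ∀ᶠ a in l, rot v0 - η ≤ rot (v a) := by
  obtain ⟨K, hK, hJ⟩ := norm_JD_le
  let J : Y →L[ℝ] HD := JD.mkContinuous K hJ
  have hJa : ∀ x, J x = JD x := fun x => rfl
  obtain ⟨φ1, h1n, h1⟩ := exists_dual_vector'' ℝ v0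
  obtain ⟨φ2, h2n, h2⟩ := exists_dual_vector'' ℝ (J v0)
  have ht := tends_all l v v0 M hb h (φ1 + φ2.comp J)
  have hval : (φ1 + φ2.comp J) v0 = rot v0 := by
    rw [rot_apply, ContinuousLinearMap.add_apply, ContinuousLinearMap.comp_apply, h1, h2, hJa]
    simp
  have hle : ∀ x : Y, (φ1 + φ2.comp J) x ≤ rot x := by
    intro x
    rw [rot_apply, ContinuousLinearMap.add_apply, ContinuousLinearMap.comp_apply]
    have k1 : φ1 x ≤ ‖x‖ := by
      calc φ1 x ≤ ‖φ1 x‖ := Real.le_norm_self _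
        _ ≤ ‖φ1‖ * ‖x‖ := φ1.le_opNorm x
        _ ≤ 1 * ‖x‖ := mul_le_mul_of_nonneg_right h1n (norm_nonneg _)
        _ = ‖x‖ := one_mul _
    have k2 : φ2 (J x) ≤ ‖JD x‖ := by
      calc φ2 (J x) ≤ ‖φ2 (J x)‖ := Real.le_norm_self _
        _ ≤ ‖φ2‖ * ‖J x‖ := φ2.le_opNorm _
        _ ≤ 1 * ‖J x‖ := mul_le_mul_of_nonneg_right h2n (norm_nonneg _)
        _ = ‖JD x‖ := by rw [one_mul, hJa]
    linarith
  rw [hval] at ht
  have hev : ∀ᶠ a in l, rot v0 - η < (φ1 + φ2.comp J) (v a) :=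
    ht.eventually_const_lt (by linarith)
  filter_upwards [hev] with a ha
  exact (ha.trans_le (hle (v a))).le

end Pool.Agent.H570.WS.A17
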