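import Pool.Agent.H570.WS.Defs

set_option autoImplicit false

namespace Pool.Agent.H570.WS.A2

open Set Filter Topology

section gen
variable {T : Type*} [PartialOrder T]


theorem coef_eq (c : T →₀ ℝ) (e : T) : c e = PS c (Iic e) - PS c (Iio e) := by
  classical
  unfold PS
  rw [Finsupp.sum, Finsupp.sum, ← Finset.sum_sub_distrib, Finset.sum_eq_single e]
  · have h1 : e ∈ Iic e := le_refl e
    have h2 : e ∉ Iio e := lt_irrefl e
    rw [if_pos h1, if_neg h2, sub_zero]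
  · intro b _ hb
    by_cases h : b ≤ e
    · have h1 : b ∈ Iic e := h
      have h2 : b ∈ Iio e := lt_of_le_of_ne h hb
      rw [if_pos h1, if_pos h2, sub_self]
    · have h1 : b ∉ Iic e := h
      have h2 : b ∉ Iio e := fun h3 => h (le_of_lt h3)
      rw [if_neg h1, if_neg h2, sub_self]
  · intro h
    have h0 : c e = 0 := Finsupp.notMem_support_iff.1 h
    rw [h0]
    simp

theorem PS_Iic (hT : ∀ a b c : T, a ≤ c → b ≤ c → a ≤ b ∨ b ≤ a) {k : ℕ} {c : T →₀ ℝ}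
    (hc : LC k c) (t : T) : |PS c (Iic t)| ≤ 1 :=
  hc.sum _ (fun a ha b hb => hT a b t ha hb) (fun a ha b hb => le_trans hb ha)

theorem PS_Iio (hT : ∀ a b c : T, a ≤ c → b ≤ c → a ≤ b ∨ b ≤ a) {k : ℕ} {c : T →₀ ℝ}
    (hc : LC k c) (t : T) : |PS c (Iio t)| ≤ 1 :=
  hc.sum _ (fun a ha b hb => hT a b t (le_of_lt ha) (le_of_lt hb))
    (fun a ha b hb => lt_of_le_of_lt hb ha)

theorem coef_le (hT : ∀ a b c : T, a ≤ c → b ≤ c → a ≤ b ∨ b ≤ a) {k : ℕ} {c : T →₀ ℝ}
    (hc : LC k c) (e : T) : |c e| ≤ 2 := by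
  rw [coef_eq c e]
  have h1 := PS_Iic hT hc e
  have h2 := PS_Iio hT hc e
  have h3 := abs_sub (PS c (Iic e)) (PS c (Iio e))
  linarith

theorem Lam_small (hT : ∀ a b c : T, a ≤ c → b ≤ c → a ≤ b ∨ b ≤ a) {k : ℕ} {c : T →₀ ℝ}
    (hc : LC k c) (h : T → ℝ) (δ : ℝ) (hδ : 0 ≤ δ) (hh : ∀ t, |h t| ≤ δ) :
    |Lam c h| ≤ 2 * k * δ := by
  unfold Lam
  rw [Finsupp.sum]
  calc |∑ e ∈ c.support, c e * h e| ≤ ∑ e ∈ c.support, |c e * h e| := Finset.abs_sum_le_sum_abs _ _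
    _ ≤ ∑ e ∈ c.support, 2 * δ := by
        refine Finset.sum_le_sum fun e _ => ?_
        rw [abs_mul]
        exact mul_le_mul (coef_le hT hc e) (hh e) (abs_nonneg _) (by norm_num)
    _ = c.support.card * (2 * δ) := by rw [Finset.sum_const, nsmul_eq_mul]
    _ ≤ k * (2 * δ) := by
        have : (c.support.card : ℝ) ≤ k := by exact_mod_cast hc.card
        exact mul_le_mul_of_nonneg_right this (by positivity)
    _ = 2 * k * δ := by ring

open Classical in
theorem Lam_comb (hT : ∀ a b c : T, a ≤ c → b ≤ c → a ≤ b ∨ b ≤ a) {k : ℕ} {c : T →₀ ℝ}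
    (hc : LC k c) (A : T →₀ ℝ) :
    |Lam c (fun s => A.sum (fun t a => if s ≤ t then a else 0))| ≤ ∑ t ∈ A.support, |A t| := by
  have h1 : Lam c (fun s => A.sum (fun t a => if s ≤ t then a else 0)) =
      ∑ t ∈ A.support, A t * PS c (Iic t) := by
    unfold Lam PS
    simp only [Finsupp.sum, Finset.mul_sum]
    rw [Finset.sum_comm]
    refine Finset.sum_congr rfl fun t _ => Finset.sum_congr rfl fun s _ => ?_
    by_cases h : s ≤ t
    · have h2 : s ∈ Iic t := h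
      rw [if_pos h, if_pos h2]
      ring
    · have h2 : s ∉ Iic t := h
      rw [if_neg h, if_neg h2]
      ring
  rw [h1]
  refine (Finset.abs_sum_le_sum_abs _ _).trans (Finset.sum_le_sum fun t _ => ?_)
  rw [abs_mul]
  have h3 := PS_Iic hT hc t
  have h4 := abs_nonneg (A t)
  nlinarith

theorem LC_zero (k : ℕ) : LC k (0 : T →₀ ℝ) := by
  refine ⟨by simp, fun J _ _ => ?_⟩
  unfold PS
  simp

theorem V_bdd (hT : ∀ a b c : T, a ≤ c → b ≤ c → a ≤ b ∨ b ≤ a)
    {f : T → ℝ} {M : ℝ} (hM : ∀ t, |f t| ≤ M) (k : ℕ) :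
    BddAbove {r | ∃ c : T →₀ ℝ, LC k c ∧ Lam c f = r} := by
  refine ⟨2 * k * |M|, ?_⟩
  rintro r ⟨c, hc, rfl⟩
  exact (le_abs_self _).trans (Lam_small hT hc f |M| (abs_nonneg _)
    (fun t => (hM t).trans (le_abs_self _)))

theorem V_mem_zero (f : T → ℝ) (k : ℕ) : (0:ℝ) ∈ {r | ∃ c : T →₀ ℝ, LC k c ∧ Lam c f = r} :=
  ⟨0, LC_zero k, by unfold Lam; simp⟩

theorem V_step (hT : ∀ a b c : T, a ≤ c → b ≤ c → a ≤ b ∨ b ≤ a)
    {f : T → ℝ} {M : ℝ} (hM : ∀ t, |f t| ≤ M) (hf : Appr f) {ε : ℝ} (hε : 0 < ε) :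
    ∃ k : ℕ, V (k + 3) f ≤ V k f + ε := by
  classical
  by_contra hcon
  push Not at hcon
  obtain ⟨A, hA⟩ := hf (ε / 24) (by positivity)
  obtain ⟨S, hS⟩ : ∃ S : ℝ, S = ∑ t ∈ A.support, |A t| := ⟨_, rfl⟩
  have hup : ∀ k : ℕ, V k f ≤ S + 2 * k * (ε / 24) := by
    intro k
    apply csSup_le ⟨0, V_mem_zero f k⟩
    rintro r ⟨c, hc, rfl⟩
    have h1 := Lam_comb hT hc A
    have h2 := Lam_small hT hc (fun s => f s - A.sum (fun t a => if s ≤ t then a else 0)) (ε / 24)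
      (by positivity) (fun s => hA s)
    have h3 : Lam c f = Lam c (fun s => f s - A.sum (fun t a => if s ≤ t then a else 0)) +
        Lam c (fun s => A.sum (fun t a => if s ≤ t then a else 0)) := by
      unfold Lam
      rw [Finsupp.sum, Finsupp.sum, Finsupp.sum, ← Finset.sum_add_distrib]
      refine Finset.sum_congr rfl fun e _ => ?_
      ring
    rw [h3, hS]
    have h4 := le_abs_self (Lam c (fun s => f s - A.sum (fun t a => if s ≤ t then a else 0)))
    have h5 := le_abs_self (Lam c (fun s => A.sum (fun t a => if s ≤ t then a else 0)))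
    linarith
  have hlow : ∀ j : ℕ, ε * j ≤ V (3 * j) f := by
    intro j
    induction j with
    | zero =>
      have : (0:ℝ) ≤ V 0 f := le_csSup (V_bdd hT hM 0) (V_mem_zero f 0)
      simpa using this
    | succ j ih =>
      have h1 := hcon (3 * j)
      have h2 : 3 * (j + 1) = 3 * j + 3 := by ring
      rw [h2]
      push_cast
      linarith
  obtain ⟨j, hj⟩ := exists_nat_gt (S / (3 / 4 * ε))
  rw [div_lt_iff₀ (by positivity)] at hj
  have h1 := hup (3 * j)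
  have h2 := hlow j
  push_cast at h1
  nlinarith

end gen

end Pool.Agent.H570.WS.A2
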