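import Pool.Agent.H570.WS.Defs

set_option autoImplicit false

namespace Pool.Agent.H570.WS.A3

open Set Filter Topology

section gen
variable {T : Type*} [PartialOrder T]


theorem LC_mod0 {k : ℕ} {c : T →₀ ℝ} (h : LC k c) {x t : T} (hxt : x < t)
    (hx : ∀ e ∈ c.support, ¬ x ≤ e) {τ : ℝ} (hτ : τ = 1 ∨ τ = -1) :
    LC (k + 3) (c + Finsupp.single x (-τ - PS c (Set.Iic x)) + Finsupp.single t (2 * τ)) := by
  classical
  have hadd : ∀ (c1 c2 : T →₀ ℝ) (J : Set T), PS (c1 + c2) J = PS c1 J + PS c2 J := by
    intro c1 c2 J
    unfold PS
    refine Finsupp.sum_add_index' (fun e => ?_) (fun e v w => ?_)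
    · simp
    · split_ifs <;> simp
  have hsin : ∀ (y : T) (a : ℝ) (J : Set T), PS (Finsupp.single y a) J = if y ∈ J then a else 0 := by
    intro y a J
    unfold PS
    rw [Finsupp.sum_single_index]
    simp
  refine ⟨?_, ?_⟩
  · have h1 : (c + Finsupp.single x (-τ - PS c (Set.Iic x)) + Finsupp.single t (2 * τ)).support ⊆
        (c.support ∪ {x}) ∪ {t} := by
      refine (Finsupp.support_add).trans (Finset.union_subset_union
        ((Finsupp.support_add).trans (Finset.union_subset_union (Finset.Subset.refl _)
          Finsupp.support_single_subset)) Finsupp.support_single_subset)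
    have h2 := Finset.card_le_card h1
    have h3 := Finset.card_union_le (c.support ∪ {x}) {t}
    have h4 := Finset.card_union_le c.support {x}
    have h5 := h.card
    simp only [Finset.card_singleton] at h3 h4
    omega
  · intro J hch hdown
    rw [hadd, hadd, hsin, hsin]
    by_cases hxJ : x ∈ J
    · have hc : PS c J = PS c (Set.Iic x) := by
        unfold PS
        refine Finsupp.sum_congr fun e he => ?_
        have hiff : e ∈ J ↔ e ∈ Set.Iic x := by
          constructor
          · intro heJ
            rcases hch e heJ x hxJ with h1 | h1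
            · exact h1
            · exact absurd h1 (hx e he)
          · intro heI
            exact hdown x hxJ e heI
        by_cases h1 : e ∈ J
        · rw [if_pos h1, if_pos (hiff.1 h1)]
        · rw [if_neg h1, if_neg (fun h2 => h1 (hiff.2 h2))]
      rw [hc, if_pos hxJ]
      by_cases htJ : t ∈ J
      · rw [if_pos htJ]
        have e1 : PS c (Set.Iic x) + (-τ - PS c (Set.Iic x)) + 2 * τ = τ := by ring
        rw [e1]
        rcases hτ with rfl | rfl <;> simp
      · rw [if_neg htJ]
        have e1 : PS c (Set.Iic x) + (-τ - PS c (Set.Iic x)) + 0 = -τ := by ring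
        rw [e1]
        rcases hτ with rfl | rfl <;> simp
    · have htJ : t ∉ J := fun htJ => hxJ (hdown t htJ x hxt.le)
      rw [if_neg hxJ, if_neg htJ, add_zero, add_zero]
      exact h.sum J hch hdown

end gen

end Pool.Agent.H570.WS.A3
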