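import Pool.Agent.H570.WS.Defs

set_option autoImplicit false

namespace Pool.Agent.H570.WS.A4

open Set Filter Topology

section gen
variable {T : Type*} [PartialOrder T]


omit [PartialOrder T] in
theorem h267_PS_add (c c' : T →₀ ℝ) (J : Set T) : PS (c + c') J = PS c J + PS c' J := by
  classical
  unfold PS
  apply Finsupp.sum_add_index'
  · intro a
    split_ifs <;> rfl
  · intro a b1 b2
    split_ifs
    · rfl
    · simp

omit [PartialOrder T] in
open Classical in
theorem h267_PS_single (x : T) (a : ℝ) (J : Set T) :
    PS (Finsupp.single x a) J = if x ∈ J then a else 0 := by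
  unfold PS
  rw [Finsupp.sum_single_index]
  split_ifs <;> rfl

theorem LC_mod1 {k : ℕ} {c : T →₀ ℝ} (h : LC k c) {x t r : T} (hxt : x < t) (hxr : x < r)
    (hx : ∀ e ∈ c.support, x ≤ e → r ≤ e) (htr : ¬ t ≤ r) (hrt : ¬ r ≤ t) {τ : ℝ} (hτ : τ = 1 ∨ τ = -1) :
    LC (k + 3) (c + Finsupp.single x (-τ - PS c (Set.Iic x)) + Finsupp.single t (2 * τ)
      + Finsupp.single r (PS c (Set.Iic x) + τ)) := by
  classical
  refine ⟨?_, ?_⟩
  · have h1 : (c + Finsupp.single x (-τ - PS c (Set.Iic x)) + Finsupp.single t (2 * τ)
      + Finsupp.single r (PS c (Set.Iic x) + τ)).support ⊆ ((c.support ∪ {x}) ∪ {t}) ∪ {r} := by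
      refine Finsupp.support_add.trans ?_
      apply Finset.union_subset_union
      · refine Finsupp.support_add.trans ?_
        apply Finset.union_subset_union
        · refine Finsupp.support_add.trans ?_
          exact Finset.union_subset_union (Finset.Subset.refl _) Finsupp.support_single_subset
        · exact Finsupp.support_single_subset
      · exact Finsupp.support_single_subset
    have h2 := Finset.card_le_card h1
    have h3 := Finset.card_union_le ((c.support ∪ {x}) ∪ {t}) {r}
    have h4 := Finset.card_union_le (c.support ∪ {x}) {t}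
    have h5 := Finset.card_union_le c.support {x}
    have h6 := h.card
    simp only [Finset.card_singleton] at h3 h4 h5
    omega
  · intro J hJ hd
    have hs := h.sum J hJ hd
    rw [h267_PS_add, h267_PS_add, h267_PS_add, h267_PS_single, h267_PS_single, h267_PS_single]
    by_cases hr : r ∈ J
    · have hxJ : x ∈ J := hd r hr x hxr.le
      have htJ : t ∉ J := by
        intro ht
        rcases hJ t ht r hr with h1 | h1
        · exact htr h1
        · exact hrt h1
      rw [if_pos hr, if_pos hxJ, if_neg htJ]
      have : PS c J + (-τ - PS c (Set.Iic x)) + 0 + (PS c (Set.Iic x) + τ) = PS c J := by ring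
      rw [this]
      exact hs
    · by_cases hxJ : x ∈ J
      · have hP : PS c J = PS c (Set.Iic x) := by
          unfold PS
          apply Finsupp.sum_congr
          intro e he
          have : e ∈ J ↔ e ∈ Set.Iic x := by
            constructor
            · intro heJ
              rcases hJ e heJ x hxJ with h1 | h1
              · exact h1
              · exact absurd (hd e heJ r (hx e he h1)) hr
            · intro hex
              exact hd x hxJ e hex
          by_cases heJ : e ∈ J
          · rw [if_pos heJ, if_pos (this.mp heJ)]
          · rw [if_neg heJ, if_neg (fun h' => heJ (this.mpr h'))]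
        rw [if_neg hr, if_pos hxJ, hP]
        by_cases htJ : t ∈ J
        · rw [if_pos htJ]
          have : PS c (Set.Iic x) + (-τ - PS c (Set.Iic x)) + 2 * τ + 0 = τ := by ring
          rw [this]
          rcases hτ with h1 | h1 <;> rw [h1] <;> norm_num
        · rw [if_neg htJ]
          have : PS c (Set.Iic x) + (-τ - PS c (Set.Iic x)) + 0 + 0 = -τ := by ring
          rw [this]
          rcases hτ with h1 | h1 <;> rw [h1] <;> norm_num
      · have htJ : t ∉ J := fun ht => hxJ (hd t ht x hxt.le)
        rw [if_neg hr, if_neg hxJ, if_neg htJ]
        simpa using hs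

end gen

end Pool.Agent.H570.WS.A4
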