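import Pool.Agent.H570.WS.Defs

set_option autoImplicit false

namespace Pool.Agent.H570.WS.A5

open Set Filter Topology

section gen
variable {T : Type*} [PartialOrder T]


omit [PartialOrder T] in
theorem LC_mod2_add (c d : T →₀ ℝ) (J : Set T) : PS (c + d) J = PS c J + PS d J := by
  classical
  unfold PS
  apply Finsupp.sum_add_index'
  · intro a
    split_ifs <;> rfl
  · intro a b₁ b₂
    split_ifs
    · rfl
    · simp

open Classical in
omit [PartialOrder T] in
theorem LC_mod2_single (x : T) (a : ℝ) (J : Set T) :
    PS (Finsupp.single x a) J = if x ∈ J then a else 0 := by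
  unfold PS
  rw [Finsupp.sum_single_index]
  split_ifs <;> rfl

theorem LC_mod2 {k : ℕ} {c : T →₀ ℝ} (h : LC k c) {x t r : T} (hxt : x < t) (htr : t < r)
    (hx : ∀ e ∈ c.support, x ≤ e → r ≤ e) {τ : ℝ} (hτ : τ = 1 ∨ τ = -1) :
    LC (k + 3) (c + Finsupp.single x (-τ - PS c (Set.Iic x)) + Finsupp.single t (2 * τ)
      + Finsupp.single r (PS c (Set.Iic x) - τ)) := by
  classical
  set P := PS c (Set.Iic x) with hP
  have hxr : x < r := hxt.trans htr
  refine ⟨?_, ?_⟩
  · have h1 : (c + Finsupp.single x (-τ - P) + Finsupp.single t (2 * τ)
      + Finsupp.single r (P - τ)).support ⊆ ((c.support ∪ {x}) ∪ {t}) ∪ {r} := by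
      refine Finsupp.support_add.trans (Finset.union_subset_union ?_ Finsupp.support_single_subset)
      refine Finsupp.support_add.trans (Finset.union_subset_union ?_ Finsupp.support_single_subset)
      exact Finsupp.support_add.trans
        (Finset.union_subset_union (Finset.Subset.refl _) Finsupp.support_single_subset)
    refine (Finset.card_le_card h1).trans ?_
    have e1 := Finset.card_union_le ((c.support ∪ {x}) ∪ {t}) {r}
    have e2 := Finset.card_union_le (c.support ∪ {x}) {t}
    have e3 := Finset.card_union_le c.support {x}
    have e4 := h.card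
    rw [Finset.card_singleton] at e1 e2 e3
    omega
  · intro J hch hdn
    rw [LC_mod2_add, LC_mod2_add, LC_mod2_add, LC_mod2_single, LC_mod2_single, LC_mod2_single]
    by_cases hxJ : x ∈ J
    · by_cases hrJ : r ∈ J
      · have htJ : t ∈ J := hdn r hrJ t htr.le
        rw [if_pos hxJ, if_pos hrJ, if_pos htJ]
        have e : PS c J + (-τ - P) + 2 * τ + (P - τ) = PS c J := by ring
        rw [e]
        exact h.sum J hch hdn
      · have hPJ : PS c J = P := by
          rw [hP]
          unfold PS
          refine Finsupp.sum_congr fun e he => ?_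
          have hiff : e ∈ J ↔ e ∈ Set.Iic x := by
            constructor
            · intro heJ
              rcases hch e heJ x hxJ with h1 | h1
              · exact h1
              · exact absurd (hdn e heJ r (hx e he h1)) hrJ
            · intro h1
              exact hdn x hxJ e h1
          by_cases heJ : e ∈ J
          · rw [if_pos heJ, if_pos (hiff.1 heJ)]
          · rw [if_neg heJ, if_neg (fun h1 => heJ (hiff.2 h1))]
        rw [if_pos hxJ, if_neg hrJ, hPJ]
        by_cases htJ : t ∈ J
        · rw [if_pos htJ]
          rcases hτ with rfl | rfl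
          · have e : P + (-1 - P) + 2 * 1 + 0 = 1 := by ring
            rw [e]; norm_num
          · have e : P + (- -1 - P) + 2 * -1 + 0 = -1 := by ring
            rw [e]; norm_num
        · rw [if_neg htJ]
          rcases hτ with rfl | rfl
          · have e : P + (-1 - P) + 0 + 0 = -1 := by ring
            rw [e]; norm_num
          · have e : P + (- -1 - P) + 0 + 0 = 1 := by ring
            rw [e]; norm_num
    · have htJ : t ∉ J := fun h1 => hxJ (hdn t h1 x hxt.le)
      have hrJ : r ∉ J := fun h1 => hxJ (hdn r h1 x hxr.le)
      rw [if_neg hxJ, if_neg htJ, if_neg hrJ, add_zero, add_zero, add_zero]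
      exact h.sum J hch hdn

end gen

end Pool.Agent.H570.WS.A5
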