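import Pool.Agent.H570.WS.Defs

set_option autoImplicit false

namespace Pool.Agent.H570.WS.A6

open Set Filter Topology

section gen
variable {T : Type*} [PartialOrder T]


open Classical in
theorem g_zero (A : T →₀ ℝ) (s : T) (h : ∀ e ∈ A.support, ¬ s ≤ e) :
    A.sum (fun t a => if s ≤ t then a else 0) = 0 := by
  apply Finset.sum_eq_zero
  intro e he
  exact if_neg (h e he)

open Classical in
theorem g_eq (A : T →₀ ℝ) (s s' : T) (h : ∀ e ∈ A.support, (s ≤ e ↔ s' ≤ e)) :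
    A.sum (fun t a => if s ≤ t then a else 0) = A.sum (fun t a => if s' ≤ t then a else 0) := by
  apply Finset.sum_congr rfl
  intro e he
  show (if s ≤ e then A e else 0) = (if s' ≤ e then A e else 0)
  by_cases h1 : s ≤ e
  · rw [if_pos h1, if_pos ((h e he).mp h1)]
  · rw [if_neg h1, if_neg (fun h2 => h1 ((h e he).mpr h2))]

theorem Lam_add (c d : T →₀ ℝ) (f : T → ℝ) : Lam (c + d) f = Lam c f + Lam d f := by
  unfold Lam
  rw [Finsupp.sum_add_index']
  · intro a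
    exact zero_mul _
  · intro a b₁ b₂
    exact add_mul _ _ _

theorem Lam_single (x : T) (v : ℝ) (f : T → ℝ) : Lam (Finsupp.single x v) f = v * f x := by
  unfold Lam
  rw [Finsupp.sum_single_index]
  exact zero_mul _

theorem pr2 {u v d : ℝ} (hu : |u| ≤ 2) (hv : |v| ≤ d) : -(2 * d) ≤ u * v := by
  have h1 : |u * v| ≤ 2 * d := by
    rw [abs_mul]
    exact mul_le_mul hu hv (abs_nonneg _) (by norm_num)
  linarith [neg_abs_le (u * v)]

theorem tend_Lam {α : Type*} {U : Filter α} {F : α → T → ℝ} {f : T → ℝ}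
    (hpt : ∀ s, Tendsto (fun a => F a s) U (𝓝 (f s))) (c : T →₀ ℝ) :
    Tendsto (fun a => Lam c (F a)) U (𝓝 (Lam c f)) := by
  unfold Lam Finsupp.sum
  exact tendsto_finsetSum _ fun i _ => (hpt i).const_mul _

theorem ev_close {α : Type*} {U : Filter α} {g : α → ℝ} {b δ : ℝ} (hδ : 0 < δ)
    (h : Tendsto g U (𝓝 b)) : ∀ᶠ a in U, |g a - b| ≤ δ := by
  rw [Metric.tendsto_nhds] at h
  filter_upwards [h δ hδ] with a ha
  rw [Real.dist_eq] at ha
  exact ha.le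

theorem gain (hT : ∀ a b c : T, a ≤ c → b ≤ c → a ≤ b ∨ b ≤ a) (hm0 : ∀ {k : ℕ} {c : T →₀ ℝ} (h : LC k c) {x t : T} (hxt : x < t)
    (hx : ∀ e ∈ c.support, ¬ x ≤ e) {τ : ℝ} (hτ : τ = 1 ∨ τ = -1),
    LC (k + 3) (c + Finsupp.single x (-τ - PS c (Set.Iic x)) + Finsupp.single t (2 * τ)))
  (hm1 : ∀ {k : ℕ} {c : T →₀ ℝ} (h : LC k c) {x t r : T} (hxt : x < t) (hxr : x < r)
    (hx : ∀ e ∈ c.support, x ≤ e → r ≤ e) (htr : ¬ t ≤ r) (hrt : ¬ r ≤ t) {τ : ℝ} (hτ : τ = 1 ∨ τ = -1),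
    LC (k + 3) (c + Finsupp.single x (-τ - PS c (Set.Iic x)) + Finsupp.single t (2 * τ)
      + Finsupp.single r (PS c (Set.Iic x) + τ)))
  (hm2 : ∀ {k : ℕ} {c : T →₀ ℝ} (h : LC k c) {x t r : T} (hxt : x < t) (htr : t < r)
    (hx : ∀ e ∈ c.support, x ≤ e → r ≤ e) {τ : ℝ} (hτ : τ = 1 ∨ τ = -1),
    LC (k + 3) (c + Finsupp.single x (-τ - PS c (Set.Iic x)) + Finsupp.single t (2 * τ)
      + Finsupp.single r (PS c (Set.Iic x) - τ)))
    {α : Type*} (U : Ultrafilter α) (F : α → T → ℝ) (f : T → ℝ) (hf : Appr f)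
    (hpt : ∀ s, Tendsto (fun a => F a s) (U : Filter α) (𝓝 (f s))) {ε : ℝ} (hε : 0 < ε) (t : α → T)
    (ht : ∀ᶠ a in (U : Filter α), ε ≤ |F a (t a) - f (t a)|) (hsel : Sel U t)
    {k : ℕ} {c : T →₀ ℝ} (hc : LC k c) {η : ℝ} (hη : 0 < η) :
    ∀ᶠ a in (U : Filter α), ∃ c' : T →₀ ℝ, LC (k + 3) c' ∧ Lam c f + 2 * ε - η ≤ Lam c' (F a) := by
  classical
  obtain ⟨δ, hδ0, hδη⟩ : ∃ δ : ℝ, 0 < δ ∧ 16 * δ = η := ⟨η / 16, by positivity, by ring⟩
  obtain ⟨A, hA⟩ := hf δ hδ0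
  have small : ∀ s, (∀ e ∈ A.support, ¬ s ≤ e) → |f s| ≤ δ := by
    intro s hs
    have h1 := hA s
    rw [g_zero A s hs, sub_zero] at h1
    exact h1
  have close : ∀ s s', (∀ e ∈ A.support, (s ≤ e ↔ s' ≤ e)) → |f s - f s'| ≤ 2 * δ := by
    intro s s' hs
    have h1 := hA s
    have h2 := hA s'
    rw [g_eq A s s' hs] at h1
    rw [abs_le] at h1 h2 ⊢
    constructor <;> linarith [h1.1, h1.2, h2.1, h2.2]
  obtain ⟨x, hxt, hx⟩ := hsel (A.support ∪ c.support)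
  have hP : |PS c (Set.Iic x)| ≤ 1 := by
    apply hc.sum
    · intro a ha b hb
      exact hT a b x ha hb
    · intro a ha b hb
      exact le_trans hb ha
  have hLam := ev_close hδ0 (tend_Lam hpt c)
  have hFx := ev_close hδ0 (hpt x)
  have hsign : ∀ D : ℝ, ε ≤ |D| → ∃ τ : ℝ, (τ = 1 ∨ τ = -1) ∧ ε ≤ τ * D := by
    intro D hD
    rcases le_or_gt 0 D with h | h
    · exact ⟨1, Or.inl rfl, by rwa [one_mul, ← abs_of_nonneg h]⟩
    · exact ⟨-1, Or.inr rfl, by rwa [neg_one_mul, ← abs_of_neg h]⟩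
  have hτ2 : ∀ τ : ℝ, (τ = 1 ∨ τ = -1) → |2 * τ| ≤ 2 ∧ |-τ - PS c (Set.Iic x)| ≤ 2 ∧
      |PS c (Set.Iic x) - τ| ≤ 2 ∧ |PS c (Set.Iic x) + τ| ≤ 2 := by
    intro τ hτ
    rw [abs_le] at hP
    rcases hτ with rfl | rfl
    · refine ⟨?_, ?_, ?_, ?_⟩ <;> rw [abs_le] <;> constructor <;> linarith [hP.1, hP.2]
    · refine ⟨?_, ?_, ?_, ?_⟩ <;> rw [abs_le] <;> constructor <;> linarith [hP.1, hP.2]
  obtain ⟨P, hPd⟩ : ∃ P, P = PS c (Set.Iic x) := ⟨_, rfl⟩
  rw [← hPd] at hP hτ2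
  rcases hx with hx0 | ⟨r, hxr, hr, hcase⟩
  · filter_upwards [hxt, hLam, hFx, ht] with a ha1 ha2 ha3 ha4
    obtain ⟨τ, hτ, hτD⟩ := hsign _ ha4
    obtain ⟨k1, k2, k3, k4⟩ := hτ2 τ hτ
    refine ⟨_, hm0 hc ha1 (fun e he => hx0 e (Finset.mem_union_right _ he)) hτ, ?_⟩
    rw [Lam_add, Lam_add, Lam_single, Lam_single, ← hPd]
    have s1 : |f x| ≤ δ := small x fun e he => hx0 e (Finset.mem_union_left _ he)
    have s2 : |f (t a)| ≤ δ := small (t a) fun e he h2 =>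
      hx0 e (Finset.mem_union_left _ he) (ha1.le.trans h2)
    have t1 := pr2 k2 s1
    have t2 := pr2 k2 ha3
    have t3 := pr2 k1 s2
    have t4 := (abs_le.mp ha2).1
    have e1 : Lam c (F a) + (-τ - P) * F a x + 2 * τ * F a (t a) =
        Lam c (F a) + ((-τ - P) * f x + (-τ - P) * (F a x - f x)) +
          (2 * (τ * (F a (t a) - f (t a))) + 2 * τ * f (t a)) := by ring
    rw [e1]
    linarith
  · have hFr := ev_close hδ0 (hpt r)
    have c1 : |f r - f x| ≤ 2 * δ := by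
      apply close
      intro e he
      exact ⟨fun h1 => hxr.le.trans h1, fun h1 => hr e (Finset.mem_union_left _ he) h1⟩
    rcases hcase with hlt | hinc
    · filter_upwards [hxt, hLam, hFx, hFr, ht, hlt] with a ha1 ha2 ha3 ha4 ha5 ha6
      obtain ⟨τ, hτ, hτD⟩ := hsign _ ha5
      obtain ⟨k1, k2, k3, k4⟩ := hτ2 τ hτ
      refine ⟨_, hm2 hc ha1 ha6 (fun e he => hr e (Finset.mem_union_right _ he)) hτ, ?_⟩
      rw [Lam_add, Lam_add, Lam_add, Lam_single, Lam_single, Lam_single, ← hPd]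
      have c2 : |f (t a) - f x| ≤ 2 * δ := by
        apply close
        intro e he
        exact ⟨fun h1 => ha1.le.trans h1, fun h1 => ha6.le.trans (hr e (Finset.mem_union_left _ he) h1)⟩
      have t1 := pr2 k2 ha3
      have t2 := pr2 k1 c2
      have t3 := pr2 k3 c1
      have t4 := pr2 k3 ha4
      have t5 := (abs_le.mp ha2).1
      have e1 : Lam c (F a) + (-τ - P) * F a x + 2 * τ * F a (t a) + (P - τ) * F a r =
          Lam c (F a) + (-τ - P) * (F a x - f x) + 2 * (τ * (F a (t a) - f (t a))) +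
          2 * τ * (f (t a) - f x) + (P - τ) * (f r - f x) + (P - τ) * (F a r - f r) := by ring
      rw [e1]
      linarith
    · filter_upwards [hxt, hLam, hFx, hFr, ht, hinc] with a ha1 ha2 ha3 ha4 ha5 ha6
      obtain ⟨τ, hτ, hτD⟩ := hsign _ ha5
      obtain ⟨k1, k2, k3, k4⟩ := hτ2 τ hτ
      refine ⟨_, hm1 hc ha1 hxr (fun e he => hr e (Finset.mem_union_right _ he)) ha6.1 ha6.2 hτ, ?_⟩
      rw [Lam_add, Lam_add, Lam_add, Lam_single, Lam_single, Lam_single, ← hPd]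
      have c2 : |f (t a)| ≤ δ := by
        apply small
        intro e he h1
        have h2 := hr e (Finset.mem_union_left _ he) (ha1.le.trans h1)
        rcases hT (t a) r e h1 h2 with h3 | h3
        · exact ha6.1 h3
        · exact ha6.2 h3
      have t1 := pr2 k2 ha3
      have t2 := pr2 k1 c2
      have t3 := pr2 k4 c1
      have t4 := pr2 k4 ha4
      have t5 := (abs_le.mp ha2).1
      have e1 : Lam c (F a) + (-τ - P) * F a x + 2 * τ * F a (t a) + (P + τ) * F a r =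
          Lam c (F a) + (-τ - P) * (F a x - f x) + 2 * (τ * (F a (t a) - f (t a))) +
          2 * τ * f (t a) + (P + τ) * (f r - f x) + (P + τ) * (F a r - f r) := by ring
      rw [e1]
      linarith

end gen

end Pool.Agent.H570.WS.A6
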