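import Pool.Agent.H570.WS.Defs

set_option autoImplicit false

namespace Pool.Agent.H570.WS.A7

open Set Filter Topology

section gen
variable {T : Type*} [PartialOrder T]


/-- JOB 7. `N = R + sum of weighted variations` is constant along the family; then no bump survives. -/
theorem kadec_abs (hT : ∀ a b c : T, a ≤ c → b ≤ c → a ≤ b ∨ b ≤ a)
    (hVbdd : ∀ (k : ℕ) {f : T → ℝ} {M : ℝ} (hM : ∀ t, |f t| ≤ M), BddAbove {r | ∃ c : T →₀ ℝ, LC k c ∧ Lam c f = r})
    (hV0 : ∀ (k : ℕ) {f : T → ℝ} {M : ℝ} (hM : ∀ t, |f t| ≤ M), 0 ≤ V k f)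
    (hVle : ∀ (k : ℕ) {f : T → ℝ} {M : ℝ} (hM : ∀ t, |f t| ≤ M), V k f ≤ 2 * k * M)
    {f : T → ℝ} {M : ℝ} (hM : ∀ t, |f t| ≤ M)
    (hstep : ∀ ε : ℝ, 0 < ε → ∃ k : ℕ, V (k + 3) f ≤ V k f + ε)
    {α : Type*} (U : Ultrafilter α) (F : α → T → ℝ) (hFM : ∀ a t, |F a t| ≤ M)
    (hpt : ∀ s, Tendsto (fun a => F a s) (U : Filter α) (𝓝 (f s)))
    (w : ℕ → ℝ) (hw : ∀ k, 0 < w k) (hws : Summable fun k => w k * (2 * k + 1))
    (R : α → ℝ) (R0 : ℝ) (hR : ∀ η : ℝ, 0 < η → ∀ᶠ a in (U : Filter α), R0 - η ≤ R a)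
    (heq : ∀ a, R a + ∑' k, w k * V k (F a) = R0 + ∑' k, w k * V k f)
    {ε : ℝ} (hε : 0 < ε)
    (hgain : ∀ {k : ℕ} {c : T →₀ ℝ} (hc : LC k c) {η : ℝ} (hη : 0 < η),
      ∀ᶠ a in (U : Filter α), ∃ c' : T →₀ ℝ, LC (k + 3) c' ∧ Lam c f + 2 * ε - η ≤ Lam c' (F a)) : False := by
  classical
  have hM0 : 0 ≤ M := by
    have h1 := hV0 1 hM
    have h2 := hVle 1 hM
    push_cast at h2
    linarith
  obtain ⟨k, hk⟩ := hstep ε hε
  -- gain at level k+3
  have hgainK : ∀ᶠ a in (U : Filter α), V (k + 3) f + ε / 2 ≤ V (k + 3) (F a) := by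
    have hne : ({r | ∃ c : T →₀ ℝ, LC k c ∧ Lam c f = r} : Set ℝ).Nonempty := by
      refine ⟨0, 0, ⟨by simp, ?_⟩, by simp [Lam]⟩
      intro J _ _
      simp [PS]
    obtain ⟨r, ⟨c, hc, hcr⟩, hr⟩ := exists_lt_of_lt_csSup hne
      (show V k f - ε / 4 < sSup {r | ∃ c : T →₀ ℝ, LC k c ∧ Lam c f = r} by
        change V k f - ε / 4 < V k f
        linarith)
    have h4 : 0 < ε / 4 := by linarith
    filter_upwards [hgain hc h4] with a ha
    obtain ⟨c', hc', hle⟩ := ha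
    have h5 : Lam c' (F a) ≤ V (k + 3) (F a) :=
      le_csSup (hVbdd (k + 3) (hFM a)) ⟨c', hc', rfl⟩
    linarith
  have hlsc : ∀ (j : ℕ) (η : ℝ), 0 < η → ∀ᶠ a in (U : Filter α), V j f - η ≤ V j (F a) := by
    intro j η hη
    have hne : ({r | ∃ c : T →₀ ℝ, LC j c ∧ Lam c f = r} : Set ℝ).Nonempty := by
      refine ⟨0, 0, ⟨by simp, ?_⟩, by simp [Lam]⟩
      intro J _ _
      simp [PS]
    obtain ⟨r, ⟨c, hc, hcr⟩, hr⟩ := exists_lt_of_lt_csSup hne
      (show V j f - η / 2 < sSup {r | ∃ c : T →₀ ℝ, LC j c ∧ Lam c f = r} by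
        change V j f - η / 2 < V j f
        linarith)
    have htend : Tendsto (fun a => Lam c (F a)) (U : Filter α) (𝓝 (Lam c f)) := by
      unfold Lam Finsupp.sum
      exact tendsto_finset_sum _ (fun e _ => (hpt e).const_mul _)
    have h6 : V j f - η < Lam c f := by rw [hcr]; linarith
    filter_upwards [htend.eventually (lt_mem_nhds h6)] with a ha
    have h5 : Lam c (F a) ≤ V j (F a) := le_csSup (hVbdd j (hFM a)) ⟨c, hc, rfl⟩
    linarith
  have hsum : ∀ (g : T → ℝ), (∀ t, |g t| ≤ M) → Summable fun j => w j * V j g := by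
    intro g hg
    refine Summable.of_nonneg_of_le (fun j => mul_nonneg (hw j).le (hV0 j hg)) (fun j => ?_)
      (hws.mul_left M)
    have h7 := hVle j hg
    have h8 : V j g ≤ M * (2 * j + 1) := by nlinarith
    calc w j * V j g ≤ w j * (M * (2 * j + 1)) := mul_le_mul_of_nonneg_left h8 (hw j).le
      _ = M * (w j * (2 * j + 1)) := by ring
  have hwK := hw (k + 3)
  obtain ⟨δ, hδdef⟩ : ∃ δ : ℝ, δ = w (k + 3) * ε / 8 := ⟨_, rfl⟩
  have hδ : 0 < δ := by rw [hδdef]; positivity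
  have hpart : ∀ᶠ n in (atTop : Filter ℕ),
      (∑' j, w j * V j f) - δ < ∑ j ∈ Finset.range n, w j * V j f :=
    (hsum f hM).hasSum.tendsto_sum_nat.eventually (lt_mem_nhds (by linarith))
  obtain ⟨J, hJ1, hJ2⟩ := (hpart.and (eventually_ge_atTop (k + 4))).exists
  have hJpos : (0 : ℝ) < (J : ℝ) + 1 := by positivity
  have hall : ∀ᶠ a in (U : Filter α), ∀ j ∈ Finset.range J,
      w j * V j f - δ / (J + 1) + (if j = k + 3 then 4 * δ else 0) ≤ w j * V j (F a) := by
    rw [Filter.eventually_all_finset]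
    intro j _
    by_cases hj : j = k + 3
    · subst hj
      filter_upwards [hgainK] with a ha
      have h9 : w (k + 3) * (V (k + 3) f + ε / 2) ≤ w (k + 3) * V (k + 3) (F a) :=
        mul_le_mul_of_nonneg_left ha hwK.le
      have h10 : 0 < δ / (J + 1) := by positivity
      simp only [if_true]
      nlinarith
    · have h11 : 0 < δ / (J + 1) / w j := by
        have := hw j
        positivity
      filter_upwards [hlsc j _ h11] with a ha
      have h12 := mul_le_mul_of_nonneg_left ha (hw j).le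
      have h13 : w j * (V j f - δ / (J + 1) / w j) = w j * V j f - δ / (J + 1) := by
        have := (hw j).ne'
        field_simp
      simp only [hj, if_false, add_zero]
      linarith
  have hev := (hall.and (hR δ hδ)).exists
  obtain ⟨a, ha, hRa⟩ := hev
  have hs1 : ∑ j ∈ Finset.range J, (w j * V j f - δ / (J + 1) + (if j = k + 3 then 4 * δ else 0))
      ≤ ∑ j ∈ Finset.range J, w j * V j (F a) := Finset.sum_le_sum ha
  have hs2 : ∑ j ∈ Finset.range J, (w j * V j f - δ / (J + 1) + (if j = k + 3 then 4 * δ else 0))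
      = (∑ j ∈ Finset.range J, w j * V j f) - J * (δ / (J + 1)) + 4 * δ := by
    rw [Finset.sum_add_distrib, Finset.sum_sub_distrib, Finset.sum_ite_eq', if_pos]
    · simp
    · simp only [Finset.mem_range]; omega
  have hs3 : (J : ℝ) * (δ / (J + 1)) ≤ δ := by
    rw [mul_div_assoc', div_le_iff₀ hJpos]
    nlinarith
  have hs4 : ∑ j ∈ Finset.range J, w j * V j (F a) ≤ ∑' j, w j * V j (F a) :=
    (hsum (F a) (hFM a)).sum_le_tsum _ (fun j _ => mul_nonneg (hw j).le (hV0 j (hFM a)))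
  have hh := heq a
  linarith

end gen

end Pool.Agent.H570.WS.A7
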