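import Pool.Agent.H570.WS.Defs

set_option autoImplicit false

namespace Pool.Agent.H570.WS.A8

open Set Filter Topology

section gen
variable {T : Type*} [PartialOrder T]


/-- JOB 8 -/
theorem lur_contra {E : Type*} [AddCommGroup E] [Module ℝ E] (N : Seminorm ℝ E)
    (hlur : ∀ (x : E) (u : ℕ → E), N x = 1 → (∀ n, N (u n) = 1) →
          Filter.Tendsto (fun n => N (u n + x)) Filter.atTop (nhds 2) →
          Filter.Tendsto (fun n => N (u n - x)) Filter.atTop (nhds 0))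
    (y : E) (hy : 0 < N y) {κ : ℝ} (hκ : 0 < κ)
    (h : ∀ ε : ℝ, 0 < ε → ∃ ψ : E, N (y + ψ) ≤ N y + ε ∧ N (y - ψ) ≤ N y + ε ∧ κ ≤ N ψ) : False := by
  obtain ⟨c0, hc0⟩ : ∃ c, c = N y := ⟨_, rfl⟩
  rw [← hc0] at h hy
  have hψ : ∀ n : ℕ, ∃ ψ : E, N (y + ψ) ≤ c0 + c0 / ((n:ℝ) + 2) ∧
      N (y - ψ) ≤ c0 + c0 / ((n:ℝ) + 2) ∧ κ ≤ N ψ := fun n => h _ (by positivity)
  choose ψ h1 h2 h3 using hψ
  have hb1 : ∀ n : ℕ, c0 - c0 / ((n:ℝ) + 2) ≤ N (y + ψ n) := by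
    intro n
    have e1 : N (y + y) ≤ N (y + ψ n) + N (y - ψ n) := by
      have e : y + y = (y + ψ n) + (y - ψ n) := by abel
      rw [e]
      exact map_add_le_add N _ _
    have h4 : N (y + y) = 2 * c0 := by
      rw [← two_smul ℝ y, map_smul_eq_mul, Real.norm_of_nonneg (by norm_num), hc0]
    linarith [h2 n]
  have hel : ∀ n : ℕ, c0 / ((n:ℝ) + 2) ≤ c0 / 2 := by
    intro n
    have : (0:ℝ) ≤ n := Nat.cast_nonneg n
    gcongr
    linarith
  have hbpos : ∀ n : ℕ, 0 < N (y + ψ n) := fun n => by linarith [hb1 n, hel n]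
  have hya : ∀ n : ℕ, 2 * c0 - c0 / ((n:ℝ) + 2) ≤ N ((y + ψ n) + y) := by
    intro n
    have e1 : N ((3:ℝ) • y) ≤ N ((y + ψ n) + y) + N (y - ψ n) := by
      have e : (3:ℝ) • y = ((y + ψ n) + y) + (y - ψ n) := by module
      rw [e]
      exact map_add_le_add N _ _
    rw [map_smul_eq_mul, Real.norm_of_nonneg (by norm_num), ← hc0] at e1
    linarith [h2 n]
  obtain ⟨x, hxdef⟩ : ∃ x : E, x = c0⁻¹ • y := ⟨_, rfl⟩
  have hx : N x = 1 := by
    rw [hxdef, map_smul_eq_mul, norm_inv, Real.norm_of_nonneg hy.le, ← hc0,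
      inv_mul_cancel₀ hy.ne']
  obtain ⟨u, hudef⟩ : ∃ u : ℕ → E, ∀ n, u n = (N (y + ψ n))⁻¹ • (y + ψ n) := ⟨_, fun _ => rfl⟩
  have hu : ∀ n, N (u n) = 1 := by
    intro n
    rw [hudef, map_smul_eq_mul, norm_inv, Real.norm_of_nonneg (hbpos n).le,
      inv_mul_cancel₀ (hbpos n).ne']
  have hr : ∀ n : ℕ, N (((N (y + ψ n))⁻¹ - c0⁻¹) • (y + ψ n)) ≤ 1 / ((n:ℝ) + 2) := by
    intro n
    have hb := hbpos n
    rw [map_smul_eq_mul, Real.norm_eq_abs]
    have e1 : |(N (y + ψ n))⁻¹ - c0⁻¹| * N (y + ψ n) = |c0 - N (y + ψ n)| / c0 := by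
      rw [show (N (y + ψ n))⁻¹ - c0⁻¹ = (c0 - N (y + ψ n)) / (N (y + ψ n) * c0) by
        field_simp, abs_div, abs_of_pos (mul_pos hb hy)]
      field_simp
    rw [e1, div_le_iff₀ hy]
    have e2 : 1 / ((n:ℝ) + 2) * c0 = c0 / ((n:ℝ) + 2) := by ring
    rw [e2, abs_le]
    constructor
    · linarith [h1 n]
    · linarith [hb1 n]
  have ht : Tendsto (fun n : ℕ => (n:ℝ) + 2) atTop atTop :=
    tendsto_atTop_add_const_right _ _ tendsto_natCast_atTop_atTop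
  have hsplit : ∀ n, u n + x = c0⁻¹ • ((y + ψ n) + y)
      + ((N (y + ψ n))⁻¹ - c0⁻¹) • (y + ψ n) := by
    intro n
    rw [hudef, hxdef]
    module
  have hsplit2 : ∀ n, c0⁻¹ • ψ n = (u n - x)
      - ((N (y + ψ n))⁻¹ - c0⁻¹) • (y + ψ n) := by
    intro n
    rw [hudef, hxdef]
    module
  have htend : Tendsto (fun n => N (u n + x)) atTop (𝓝 2) := by
    have hlow : ∀ n : ℕ, 2 - 2 / ((n:ℝ) + 2) ≤ N (u n + x) := by
      intro n
      have e1 : N (c0⁻¹ • ((y + ψ n) + y)) ≤ N (u n + x)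
          + N (((N (y + ψ n))⁻¹ - c0⁻¹) • (y + ψ n)) := by
        have e : c0⁻¹ • ((y + ψ n) + y) = (u n + x)
            - ((N (y + ψ n))⁻¹ - c0⁻¹) • (y + ψ n) := by
          rw [hsplit n]
          abel
        rw [e]
        exact map_sub_le_add N _ _
      rw [map_smul_eq_mul, norm_inv, Real.norm_of_nonneg hy.le] at e1
      have e2 : c0⁻¹ * (2 * c0 - c0 / ((n:ℝ) + 2)) ≤ c0⁻¹ * N ((y + ψ n) + y) :=
        mul_le_mul_of_nonneg_left (hya n) (inv_nonneg.mpr hy.le)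
      have e3 : c0⁻¹ * (2 * c0 - c0 / ((n:ℝ) + 2)) = 2 - 1 / ((n:ℝ) + 2) := by
        field_simp
      have e4 : 2 / ((n:ℝ) + 2) = 1 / ((n:ℝ) + 2) + 1 / ((n:ℝ) + 2) := by ring
      rw [e3] at e2
      rw [e4]
      linarith [hr n]
    have hup : ∀ n : ℕ, N (u n + x) ≤ 2 := by
      intro n
      refine (map_add_le_add N _ _).trans ?_
      rw [hu n, hx]
      norm_num
    have hl : Tendsto (fun n : ℕ => 2 - 2 / ((n:ℝ) + 2)) atTop (𝓝 2) := by
      have := (tendsto_const_nhds (x := (2:ℝ)) (f := (atTop : Filter ℕ))).sub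
        (ht.const_div_atTop 2)
      simpa using this
    exact tendsto_of_tendsto_of_tendsto_of_le_of_le hl tendsto_const_nhds hlow hup
  have hfin := hlur x u hx hu htend
  have hle : ∀ n : ℕ, κ / c0 ≤ N (u n - x) + 1 / ((n:ℝ) + 2) := by
    intro n
    have e1 : N (c0⁻¹ • ψ n) ≤ N (u n - x) + N (((N (y + ψ n))⁻¹ - c0⁻¹) • (y + ψ n)) := by
      rw [hsplit2 n]
      exact map_sub_le_add N _ _
    rw [map_smul_eq_mul, norm_inv, Real.norm_of_nonneg hy.le] at e1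
    have e2 : κ / c0 ≤ c0⁻¹ * N (ψ n) := by
      rw [div_eq_inv_mul]
      exact mul_le_mul_of_nonneg_left (h3 n) (inv_nonneg.mpr hy.le)
    linarith [hr n]
  have hlim : Tendsto (fun n : ℕ => N (u n - x) + 1 / ((n:ℝ) + 2)) atTop (𝓝 (0 + 0)) :=
    hfin.add (ht.const_div_atTop 1)
  have hcon : κ / c0 ≤ 0 + 0 := ge_of_tendsto' hlim hle
  have hpos : 0 < κ / c0 := div_pos hκ hy
  linarith

end gen

end Pool.Agent.H570.WS.A8
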