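import Pool.Agent.H570.WS.Defs

set_option autoImplicit false

namespace Pool.Agent.H570.WS.A9

open Set Filter Topology Pool.Agent.Helper570.Tree


theorem dy_child {t : Node} (h : Dy t) {i : ℕ} (hi : i ≤ 1) : Dy (child t i) := by
  intro c
  show (if c = t.len then i else t.val c) ≤ 1
  split_ifs
  · exact hi
  · exact h c

/-- gliding hump -/
theorem glide2 {R δ : ℝ} (hδ : 0 < δ) (Z : Y → Prop)
    (hZ : ∀ F : Finset Dt, ∃ ζ, Z ζ ∧ (∀ d ∈ F, eP (.ct d) ζ = 0) ∧ ‖ζ‖ ≤ R ∧
      ∀ s, |eP (.nd s) ζ| ≤ δ) :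
    ∃ ζ : ℕ → Y, (∀ n, Z (ζ n)) ∧
      ∀ m : ℕ, ‖∑ n ∈ Finset.range m, ζ n‖ ≤ R + m * (2 * δ) := by
  classical
  obtain ⟨f, hf1, hf2⟩ := exists_seq_of_forall_finset_exists
    (fun x : Y × Finset Dt => Z x.1 ∧ ‖x.1‖ ≤ R ∧ (∀ s, |eP (.nd s) x.1| ≤ δ) ∧
      (∀ d, d ∉ x.2 → |eP (.ct d) x.1| ≤ 2 * δ))
    (fun x y => ∀ d ∈ x.2, eP (.ct d) y.1 = 0)
    (by
      intro s _
      obtain ⟨ζ, h1, h2, h3, h4⟩ := hZ (s.biUnion fun x => x.2)
      obtain ⟨E, hE, hE'⟩ := near_node ζ ζ hδ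
      refine ⟨(ζ, hE.toFinset), ⟨h1, h3, h4, ?_⟩, ?_⟩
      · intro d hd
        have hd' : d ∉ E := fun h => hd (hE.mem_toFinset.2 h)
        rcases hE' d hd' with ⟨s', h5, -⟩ | ⟨h5, -⟩
        · have h6 := h4 s'
          have h7 : eP (.ct d) ζ = (eP (.ct d) ζ - eP (.nd s') ζ) + eP (.nd s') ζ := by ring
          show |eP (.ct d) ζ| ≤ 2 * δ
          rw [h7]
          refine (abs_add_le _ _).trans ?_
          linarith
        · show |eP (.ct d) ζ| ≤ 2 * δ
          linarith
      · intro x hx d hd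
        exact h2 d (Finset.mem_biUnion.2 ⟨x, hx, hd⟩))
  have hR : 0 ≤ R := (norm_nonneg _).trans (hf1 0).2.1
  refine ⟨fun n => (f n).1, fun n => (hf1 n).1, fun m => ?_⟩
  apply normY_le (by positivity)
  intro z
  rw [map_sum]
  refine (Finset.abs_sum_le_sum_abs _ _).trans ?_
  set Bz := (Finset.range m).filter fun n => 2 * δ < |eP z (f n).1| with hBz
  have hcard : Bz.card ≤ 1 := by
    rw [Finset.card_le_one]
    intro a ha b hb
    by_contra hab
    have hall : ∀ n ∈ Bz, 2 * δ < |eP z (f n).1| := fun n hn => (Finset.mem_filter.1 hn).2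
    have key : ∀ a b : ℕ, a < b → a ∈ Bz → b ∈ Bz → False := by
      intro a b hab ha hb
      cases z with
      | nd s =>
        have h1 := hall a ha
        have h2 := (hf1 a).2.2.1 s
        linarith
      | ct d =>
        have h1 : d ∈ (f a).2 := by
          by_contra h
          exact absurd (hall a ha) (not_lt.2 ((hf1 a).2.2.2 d h))
        have h2 := hf2 a b hab d h1
        have h3 := hall b hb
        rw [h2, abs_zero] at h3
        linarith
    rcases lt_or_gt_of_ne hab with h | h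
    · exact key a b h ha hb
    · exact key b a h hb ha
  rw [← Finset.sum_filter_add_sum_filter_not (Finset.range m) (fun n => 2 * δ < |eP z (f n).1|)]
  apply add_le_add
  · refine (Finset.sum_le_card_nsmul _ _ R fun n _ => (abs_eP_le _ _).trans (hf1 n).2.1).trans ?_
    rw [nsmul_eq_mul]
    have : (Bz.card : ℝ) ≤ 1 := by exact_mod_cast hcard
    calc (Bz.card : ℝ) * R ≤ 1 * R := mul_le_mul_of_nonneg_right this hR
      _ = R := one_mul _
  · refine (Finset.sum_le_card_nsmul _ _ (2 * δ) fun n hn => not_lt.1 (Finset.mem_filter.1 hn).2).trans ?_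
    rw [nsmul_eq_mul]
    apply mul_le_mul_of_nonneg_right _ (by positivity)
    have := Finset.card_filter_le (Finset.range m) (fun n => ¬ 2 * δ < |eP z (f n).1|)
    rw [Finset.card_range] at this
    exact_mod_cast this

end Pool.Agent.H570.WS.A9
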