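import Pool.Agent.H570.WS.Nrm

set_option autoImplicit false

namespace Pool.Agent.H570.WS.B1

open Set Filter Topology Pool.Agent.Helper570.Tree

theorem closed_YD : IsClosed (YD : Set Y) := by
  have h : (YD : Set Y) = ⋂ (s : Node) (_ : ¬ Dy s), {y : Y | eP (.nd s) y = 0} := by
    ext y
    simp only [Set.mem_iInter, Set.mem_setOf_eq]
    exact Iff.rfl
  rw [h]
  refine isClosed_iInter fun s => isClosed_iInter fun _ => ?_
  exact isClosed_eq (eP (.nd s)).continuous continuous_const

theorem complete_YD : CompleteSpace YD := closed_YD.completeSpace_coe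

theorem complete_Z (hK : KFacts) : CompleteSpace (Z hK) := by
  obtain ⟨C, hC, hb⟩ := Ns_upper hK
  haveI := complete_YD
  have h1 : ∀ x : Z hK, ‖toYD hK x‖ ≤ 1 * ‖x‖ := by
    intro x
    rw [one_mul]
    exact norm_toYD hK x
  have h2 : ∀ x : YD, ‖(toYD hK).symm x‖ ≤ C * ‖x‖ := by
    intro x
    exact hb x
  let e : Z hK ≃L[ℝ] YD := (toYD hK).toContinuousLinearEquivOfBounds 1 C h1 h2
  exact (completeSpace_congr (e := e.toEquiv) e.isUniformEmbedding).2 this

theorem strict_Z (hK : KFacts) : StrictConvexSpace ℝ (Z hK) := by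
  refine StrictConvexSpace.of_norm_add_ne_two ?_
  intro x y hx hy hne
  exact Ns_strict hK x y hx hy hne

end Pool.Agent.H570.WS.B1
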