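import Pool.Agent.H570.WS.Nrm

set_option autoImplicit false

namespace Pool.Agent.H570.WS.B2

open Set Filter Topology Pool.Agent.Helper570.Tree

theorem weak_eval_cont {E : Type*} [NormedAddCommGroup E] [NormedSpace ℝ E] (ξ : E →L[ℝ] ℝ) :
    Continuous (fun x : WeakSpace ℝ E => ξ ((toWeakSpace ℝ E).symm x)) :=
  WeakBilin.eval_continuous (topDualPairing ℝ E).flip ξ

theorem weak_tendsto {E : Type*} [NormedAddCommGroup E] [NormedSpace ℝ E] {α : Type*}
    (l : Filter α) (f : α → WeakSpace ℝ E) (x : WeakSpace ℝ E)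
    (h : ∀ ξ : E →L[ℝ] ℝ, Tendsto (fun a => ξ ((toWeakSpace ℝ E).symm (f a))) l
      (𝓝 (ξ ((toWeakSpace ℝ E).symm x)))) :
    Tendsto f l (𝓝 x) := by
  have h1 : 𝓝 x = comap (fun (z : WeakSpace ℝ E) (ξ : E →L[ℝ] ℝ) => ξ ((toWeakSpace ℝ E).symm z))
      (𝓝 (fun ξ => ξ ((toWeakSpace ℝ E).symm x))) := nhds_induced _ _
  rw [h1, tendsto_comap_iff, tendsto_pi_nhds]
  exact h

theorem metr_Z (hK : KFacts)
    (hkad : ∀ {α : Type} (U : Ultrafilter α) (v : α → YD) (v0 : YD),
      (∀ z, Tendsto (fun a => eP z (v a : Y)) (U : Filter α) (𝓝 (eP z (v0 : Y)))) →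
      (∀ a, Ns hK (v a) = Ns hK v0) → ∀ ε : ℝ, 0 < ε →
      ∀ᶠ a in (U : Filter α), ∀ s, |eP (.nd s) (v a : Y) - eP (.nd s) (v0 : Y)| ≤ ε)
    (htend : ∀ {α : Type} (l : Filter α) (v : α → Y) (v0 : Y) (M : ℝ) (hb : ∀ a, ‖v a‖ ≤ M)
      (h : ∀ z, Tendsto (fun a => eP z (v a)) l (𝓝 (eP z v0))) (ξ : Y →L[ℝ] ℝ),
      Tendsto (fun a => ξ (v a)) l (𝓝 (ξ v0))) :
    TopologicalSpace.MetrizableSpace ↥((toWeakSpace ℝ (Z hK)) '' Metric.sphere (0 : Z hK) 1) := by
  classical
  set S := ((toWeakSpace ℝ (Z hK)) '' Metric.sphere (0 : Z hK) 1) with hS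
  let vz : S → Z hK := fun s => (toWeakSpace ℝ (Z hK)).symm s.1
  let vec : S → YD := fun s => toYD hK (vz s)
  have hvz : ∀ s, ‖vz s‖ = 1 := by
    rintro ⟨_, z, hz, rfl⟩
    have h1 : ‖z‖ = 1 := by simpa using hz
    show ‖(toWeakSpace ℝ (Z hK)).symm ((toWeakSpace ℝ (Z hK)) z)‖ = 1
    rw [LinearEquiv.symm_apply_apply]
    exact h1
  have hNs : ∀ s, Ns hK (vec s) = 1 := hvz
  have hnorm : ∀ s, ‖((vec s : YD) : Y)‖ ≤ 1 := by
    intro s
    have h1 := Ns_lower hK (vec s)
    rw [hNs s] at h1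
    exact h1
  let Φ : S → B × (Dt → ℝ) := fun s => (resB (incY (vec s : Y)), fun d => eP (.ct d) (vec s : Y))
  have hvzinj : Function.Injective vz := by
    intro s t h
    exact Subtype.ext ((toWeakSpace ℝ (Z hK)).symm.injective h)
  have hinj : Function.Injective Φ := by
    intro s t h
    have h2 : ∀ d, eP (.ct d) (vec s : Y) = eP (.ct d) (vec t : Y) := fun d =>
      congrFun (congrArg Prod.snd h) d
    have h3 : ((vec s : YD) : Y) - ((vec t : YD) : Y) = 0 := by
      apply Y_inj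
      intro d
      rw [eP_sub, h2 d, sub_self]
    have h4 : vec s = vec t := Subtype.ext (sub_eq_zero.1 h3)
    exact hvzinj ((toYD hK).injective h4)
  have hind : Topology.IsInducing Φ := by
    rw [Topology.isInducing_iff_nhds]
    intro s0
    apply le_antisymm
    · rw [← Filter.map_le_iff_le_comap]
      show Tendsto Φ (𝓝 s0) (𝓝 (Φ s0))
      rw [tendsto_iff_ultrafilter]
      intro U hU
      have hev : ∀ z, Tendsto (fun s => eP z (vec s : Y)) (U : Filter S) (𝓝 (eP z (vec s0 : Y))) := by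
        intro z
        let ξ : Z hK →L[ℝ] ℝ := LinearMap.mkContinuous
          ((eP z).toLinearMap ∘ₗ YD.subtype ∘ₗ (toYD hK).toLinearMap) 1 (by
            intro x
            rw [one_mul, Real.norm_eq_abs]
            refine (abs_eP_le z _).trans ?_
            exact norm_toYD hK x)
        have h1 : Continuous (fun s : S => ξ (vz s)) :=
          (weak_eval_cont ξ).comp continuous_subtype_val
        exact (h1.tendsto s0).mono_left hU
      have hk := hkad U vec (vec s0) hev (fun a => by rw [hNs, hNs])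
      refine Tendsto.prodMk_nhds ?_ (tendsto_pi_nhds.2 fun d => hev (.ct d))
      rw [Metric.tendsto_nhds]
      intro ε hε
      filter_upwards [hk (ε / 2) (half_pos hε)] with s hs
      refine lt_of_le_of_lt ?_ (half_lt_self hε)
      rw [BoundedContinuousFunction.dist_le (half_pos hε).le]
      intro t
      rw [Real.dist_eq]
      exact hs t
    · have hΦ : Tendsto Φ (comap Φ (𝓝 (Φ s0))) (𝓝 (Φ s0)) := tendsto_comap
      have hev : ∀ z, Tendsto (fun s => eP z (vec s : Y)) (comap Φ (𝓝 (Φ s0)))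
          (𝓝 (eP z (vec s0 : Y))) := by
        intro z
        cases z with
        | nd t =>
          have hc : Continuous (fun p : B × (Dt → ℝ) => p.1 t) :=
            (BoundedContinuousFunction.evalCLM ℝ t).continuous.comp continuous_fst
          exact (hc.tendsto (Φ s0)).comp hΦ
        | ct d =>
          have hc : Continuous (fun p : B × (Dt → ℝ) => p.2 d) :=
            (continuous_apply d).comp continuous_snd
          exact (hc.tendsto (Φ s0)).comp hΦ
      show Tendsto id (comap Φ (𝓝 (Φ s0))) (𝓝 s0)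
      rw [tendsto_subtype_rng]
      apply weak_tendsto
      intro ξ
      obtain ⟨C, hC, hCb⟩ := Ns_upper hK
      let η0 : YD →L[ℝ] ℝ := LinearMap.mkContinuous
        (ξ.toLinearMap ∘ₗ (toYD hK).symm.toLinearMap) (‖ξ‖ * C) (by
          intro y
          have h1 : ‖ξ ((toYD hK).symm y)‖ ≤ ‖ξ‖ * ‖(toYD hK).symm y‖ := ξ.le_opNorm _
          have h2 : ‖(toYD hK).symm y‖ ≤ C * ‖y‖ := hCb y
          calc ‖ξ ((toYD hK).symm y)‖ ≤ ‖ξ‖ * ‖(toYD hK).symm y‖ := h1
            _ ≤ ‖ξ‖ * (C * ‖y‖) := mul_le_mul_of_nonneg_left h2 (norm_nonneg _)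
            _ = ‖ξ‖ * C * ‖y‖ := by ring)
      obtain ⟨η, hη, -⟩ := exists_extension_norm_eq YD η0
      have h3 := htend (comap Φ (𝓝 (Φ s0))) (fun s => ((vec s : YD) : Y)) (vec s0 : Y) 1 hnorm hev η
      have h4 : ∀ s, η ((vec s : YD) : Y) = ξ (vz s) := by
        intro s
        rw [hη]
        rfl
      simp only [h4] at h3
      exact h3
  have _ : TopologicalSpace.MetrizableSpace (Dt → ℝ) := inferInstance
  exact (Topology.IsEmbedding.mk hind hinj).metrizableSpace

end Pool.Agent.H570.WS.B2
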