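import Pool.Agent.Helper570.TwistAsplund
import Pool.Agent.Helper570.TwistRot

set_option autoImplicit false

namespace Pool.Agent.H570.WS

open Set Filter Topology

section gen
variable {T : Type*} [PartialOrder T]

open Classical in
/-- partial sums of a finitely supported family over a set -/
noncomputable def PS (c : T →₀ ℝ) (J : Set T) : ℝ := c.sum fun e v => if e ∈ J then v else 0

/-- admissible coefficient families: at most k points, and all sums over initial chains are at most 1 -/
structure LC (k : ℕ) (c : T →₀ ℝ) : Prop where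
  card : c.support.card ≤ k
  sum : ∀ J : Set T, (∀ a ∈ J, ∀ b ∈ J, a ≤ b ∨ b ≤ a) → (∀ a ∈ J, ∀ b, b ≤ a → b ∈ J) → |PS c J| ≤ 1

noncomputable def Lam (c : T →₀ ℝ) (f : T → ℝ) : ℝ := c.sum fun e v => v * f e

/-- the k-variation -/
noncomputable def V (k : ℕ) (f : T → ℝ) : ℝ := sSup {r | ∃ c : T →₀ ℝ, LC k c ∧ Lam c f = r}

open Classical in
/-- uniform approximation by finite combinations of indicators of initial segments -/
def Appr (f : T → ℝ) : Prop := ∀ δ : ℝ, 0 < δ → ∃ A : T →₀ ℝ, ∀ s : T,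
  |f s - A.sum (fun t a => if s ≤ t then a else 0)| ≤ δ

/-- the selection property of a family of nodes along an ultrafilter -/
def Sel {α : Type*} (U : Ultrafilter α) (t : α → T) : Prop :=
  ∀ E : Finset T, ∃ x, (∀ᶠ a in (U : Filter α), x < t a) ∧
    ((∀ e ∈ E, ¬ x ≤ e) ∨
      ∃ r, x < r ∧ (∀ e ∈ E, x ≤ e → r ≤ e) ∧
        ((∀ᶠ a in (U : Filter α), t a < r) ∨ (∀ᶠ a in (U : Filter α), ¬ t a ≤ r ∧ ¬ r ≤ t a)))

end gen

open Pool.Agent.Helper570.Tree

/-- dyadic nodes -/
def Dy (t : Node) : Prop := ∀ c, t.val c ≤ 1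

/-- the subspace of the elements vanishing at the nodes which are not dyadic -/
noncomputable def YD : Submodule ℝ Y where
  carrier := {y | ∀ s, ¬ Dy s → eP (.nd s) y = 0}
  add_mem' := by
    intro a b ha hb s hs
    rw [eP_add, ha s hs, hb s hs, add_zero]
  zero_mem' := by
    intro s _
    exact eP_zero _
  smul_mem' := by
    intro r a ha s hs
    rw [eP_smul, ha s hs, mul_zero]

open Classical in
/-- approximants of the dyadic mass function of the node `t` -/
noncomputable def fk : ℕ → Node → Node → ℝ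
  | 0, t, s => if s ≤ t then 1 else 0
  | k + 1, t, s => (fk k (child t 0) s + fk k (child t 1) s) / 2

/-- near minimality along the dyadic tree above `u0` -/
def Stb (p : Seminorm ℝ YD) (u0 : Node) : Prop :=
  ∀ y : YD, Cls u0 (y : Y) → ∀ u, Dy u → u0 ≤ u → ∀ (F : Finset Dt) (η : ℝ), 0 < η →
    ∃ z : YD, Cls u (z : Y) ∧ (∀ d ∈ F, eP (.ct d) (z : Y) = eP (.ct d) (y : Y)) ∧ p z ≤ p y + η

end Pool.Agent.H570.WS
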