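import Pool.Agent.H570.WS.Nrm
import Pool.Agent.H570.WS.A1
import Pool.Agent.H570.WS.A2
import Pool.Agent.H570.WS.A3
import Pool.Agent.H570.WS.A4
import Pool.Agent.H570.WS.A5
import Pool.Agent.H570.WS.A6
import Pool.Agent.H570.WS.A7
import Pool.Agent.H570.WS.A14
import Pool.Agent.H570.WS.A15
import Pool.Agent.H570.WS.A16
import Pool.Agent.H570.WS.A17

set_option autoImplicit false

namespace Pool.Agent.H570.WS

open Set Filter Topology Pool.Agent.Helper570.Tree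

theorem exists_node : Nonempty Node := by
  obtain ⟨b0⟩ : Nonempty W := inferInstance
  exact ⟨⟨b0, fun _ => 0, fun _ _ => rfl⟩⟩

theorem VleN (k : ℕ) {f : Node → ℝ} {M : ℝ} (hM : ∀ t, |f t| ≤ M) : V k f ≤ 2 * k * M := by
  obtain ⟨s0⟩ := exists_node
  exact A1.V_le hTN k ((abs_nonneg _).trans (hM s0)) hM

theorem kfacts0 :
    (∀ y, Summable fun k => wk k * V k (nq y)) ∧ (∀ y, 0 ≤ Kf y) ∧ (∀ y, Kf y ≤ 2 * ‖y‖) ∧
    (∀ x y, Kf (x + y) ≤ Kf x + Kf y) ∧ (∀ (r : ℝ) y, Kf (r • y) = |r| * Kf y) :=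
  A16.Kf_facts (fun k _ _ hM => A1.V_nonneg hTN k hM) (fun k _ _ hM => VleN k hM)
  (fun k _ _ _ _ hM hM' => A1.V_add hTN k hM hM') (fun k _ _ hM r => A1.V_smul hTN k hM r)

theorem hKK : KFacts :=
  ⟨kfacts0.2.1, kfacts0.2.2.1, kfacts0.2.2.2.1, kfacts0.2.2.2.2⟩

theorem kadecY {α : Type} (U : Ultrafilter α) (v : α → YD) (v0 : YD)
    (hpt : ∀ z, Tendsto (fun a => eP z (v a : Y)) (U : Filter α) (𝓝 (eP z (v0 : Y))))
    (hN : ∀ a, Ns hKK (v a) = Ns hKK v0) (ε : ℝ) (hε : 0 < ε) :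
    ∀ᶠ a in (U : Filter α), ∀ s, |eP (.nd s) (v a : Y) - eP (.nd s) (v0 : Y)| ≤ ε := by
  classical
  by_contra hcon
  rw [← Ultrafilter.eventually_not] at hcon
  obtain ⟨s0⟩ := exists_node
  set t : α → Node := fun a =>
    if h : ∃ s, ¬ |eP (.nd s) (v a : Y) - eP (.nd s) (v0 : Y)| ≤ ε then h.choose else s0 with ht
  have htε : ∀ᶠ a in (U : Filter α), ε < |eP (.nd (t a)) (v a : Y) - eP (.nd (t a)) (v0 : Y)| := by
    filter_upwards [hcon] with a ha
    push Not at ha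
    have h1 : ∃ s, ¬ |eP (.nd s) (v a : Y) - eP (.nd s) (v0 : Y)| ≤ ε := by
      obtain ⟨s, hs⟩ := ha
      exact ⟨s, not_le.2 hs⟩
    have h2 : t a = h1.choose := by
      simp only [ht]
      rw [dif_pos h1]
    rw [h2]
    exact not_le.1 h1.choose_spec
  have hDy : ∀ᶠ a in (U : Filter α), Dy (t a) := by
    filter_upwards [htε] with a ha
    by_contra hnot
    have h1 : eP (.nd (t a)) (v a : Y) = 0 := (v a).2 _ hnot
    have h2 : eP (.nd (t a)) (v0 : Y) = 0 := v0.2 _ hnot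
    rw [h1, h2, sub_zero, abs_zero] at ha
    linarith
  have hne : ∀ r, ∀ᶠ a in (U : Filter α), t a ≠ r := by
    intro r
    have h1 := (Metric.tendsto_nhds.1 (hpt (.nd r))) ε hε
    filter_upwards [h1, htε] with a ha hb hr
    rw [hr] at hb
    rw [Real.dist_eq] at ha
    linarith
  have hsel := A15.sel_node U t hDy hne
  set M : ℝ := Ns hKK v0 with hM
  have hvM : ∀ a, ‖v a‖ ≤ M := fun a => (Ns_lower hKK (v a)).trans (hN a).le
  have hv0M : ‖v0‖ ≤ M := Ns_lower hKK v0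
  have happr : Appr (nq v0) := fun δ hδ => A14.appr_Y (v0 : Y) δ hδ
  have hM0 : ∀ s, |nq v0 s| ≤ M := fun s => (nq_le v0 s).trans hv0M
  refine A7.kadec_abs hTN (fun k _ _ hM => A1.V_bdd hTN k hM) (fun k _ _ hM => A1.V_nonneg hTN k hM)
    (fun k _ _ hM => VleN k hM) hM0 (fun ε' hε' => A2.V_step hTN hM0 happr hε') U
    (fun a => nq (v a)) (fun a s => (nq_le (v a) s).trans (hvM a)) (fun s => hpt (.nd s)) wk wk_pos
    wk_sum (fun a => rot (v a : Y)) (rot (v0 : Y))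
    (fun η hη => A17.rot_lsc (U : Filter α) (fun a => (v a : Y)) (v0 : Y) M hvM hpt η hη)
    (fun a => ?_) hε ?_
  · have h1 := hN a
    rw [Ns_apply, hM, Ns_apply] at h1
    exact h1
  · intro k c hc η hη
    exact A6.gain hTN (fun h _ _ hxt hx _ hτ => A3.LC_mod0 h hxt hx hτ)
      (fun h _ _ _ hxt hxr hx htr hrt _ hτ => A4.LC_mod1 h hxt hxr hx htr hrt hτ)
      (fun h _ _ _ hxt htr hx _ hτ => A5.LC_mod2 h hxt htr hx hτ) U (fun a => nq (v a)) (nq v0)
      happr (fun s => hpt (.nd s)) hε t (by filter_upwards [htε] with a ha using ha.le) hsel hc hη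

end Pool.Agent.H570.WS
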