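import Pool.Agent.H570.WS.Kadec
import Pool.Agent.H570.WS.A8
import Pool.Agent.H570.WS.A9
import Pool.Agent.H570.WS.A10
import Pool.Agent.H570.WS.A11
import Pool.Agent.H570.WS.A12
import Pool.Agent.H570.WS.A13

set_option autoImplicit false

namespace Pool.Agent.H570.WS

open Set Filter Topology Pool.Agent.Helper570.Tree

theorem se_YD {p : Seminorm ℝ YD} {c C : ℝ} (hc : 0 < c) (hC : 0 ≤ C) (hp : ∀ x, p x ≤ C * ‖x‖)
    (hpl : ∀ x, c * ‖x‖ ≤ p x) : ∃ y : YD, 0 < p y ∧ ∀ ε : ℝ, 0 < ε → ∃ ψ : YD,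
      p (y + ψ) ≤ p y + ε ∧ p (y - ψ) ≤ p y + ε ∧ c / 2 ≤ p ψ := by
  obtain ⟨u0, hu0, hst⟩ := A11.stable2 hC hp
  obtain ⟨y, hyk⟩ := A10.exists_y hu0
  have hCls : Cls u0 (y : Y) := by
    intro s hs
    have h1 : ∀ k : ℕ, |eP (.nd s) (y : Y) - eP (.nd s) (chiT u0)| ≤ (1 / 2) ^ k := by
      intro k
      have h2 := hyk k s
      rw [A10.fk_not k u0 hs] at h2
      exact h2
    have h3 : |eP (.nd s) (y : Y) - eP (.nd s) (chiT u0)| ≤ 0 :=
      ge_of_tendsto' (tendsto_pow_atTop_nhds_zero_of_lt_one (by norm_num) (by norm_num)) h1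
    have h4 := abs_nonpos_iff.1 h3
    linarith
  exact ⟨y, A13.not_se hc hC hp hpl (fun h _ hi => A9.dy_child h hi)
    (fun hδ Z hZ => A9.glide2 hδ Z hZ) hu0 hCls hyk
    (fun k => A12.levels hc hpl (fun h _ hi => A9.dy_child h hi) hst hCls k)⟩

theorem no_lur (N : Seminorm ℝ (Z hKK)) {c C : ℝ} (hc : 0 < c) (hC : 0 < C)
    (hN : ∀ x : Z hKK, c * ‖x‖ ≤ N x ∧ N x ≤ C * ‖x‖)
    (hlur : ∀ (x : Z hKK) (u : ℕ → Z hKK), N x = 1 → (∀ n, N (u n) = 1) →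
          Filter.Tendsto (fun n => N (u n + x)) Filter.atTop (nhds 2) →
          Filter.Tendsto (fun n => N (u n - x)) Filter.atTop (nhds 0)) : False := by
  obtain ⟨C', hC', hup⟩ := Ns_upper hKK
  let p : Seminorm ℝ YD := N.comp (toYD hKK).symm.toLinearMap
  have hpe : ∀ y : YD, p y = N ((toYD hKK).symm y) := fun _ => rfl
  obtain ⟨y, hy, hψ⟩ := se_YD (p := p) (C := C * C') hc (by positivity) (by
    intro x
    rw [hpe]
    refine (hN _).2.trans ?_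
    rw [mul_assoc]
    exact mul_le_mul_of_nonneg_left (hup x) hC.le) (by
    intro x
    rw [hpe]
    refine le_trans ?_ (hN _).1
    exact mul_le_mul_of_nonneg_left (Ns_lower hKK x) hc.le)
  refine A8.lur_contra N hlur ((toYD hKK).symm y) hy (κ := c / 2) (by positivity) ?_
  intro ε hε
  obtain ⟨ψ, h1, h2, h3⟩ := hψ ε hε
  refine ⟨(toYD hKK).symm ψ, ?_, ?_, h3⟩
  · rw [← map_add]; exact h1
  · rw [← map_sub]; exact h2

end Pool.Agent.H570.WS
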