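import Pool.Agent.H570.WS.NoLur
import Pool.Agent.H570.WS.B1
import Pool.Agent.H570.WS.B2

set_option autoImplicit false

namespace Pool.Agent.H570.WS

open Set Filter Topology Pool.Agent.Helper570.Tree

theorem mlur_contra {E : Type*} [AddCommGroup E] [Module ℝ E] (p : Seminorm ℝ E) {c : ℝ} (hc : 0 < c)
    (y : E) (hy : 0 < p y)
    (hyψ : ∀ ε : ℝ, 0 < ε → ∃ ψ : E, p (y + ψ) ≤ p y + ε ∧ p (y - ψ) ≤ p y + ε ∧ c / 2 ≤ p ψ)
    (hmlur : ∀ x : E, p x = 1 → ∀ u : ℕ → E, (∀ n, p (u n) ≤ 1) →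
      Tendsto (fun n => p (x + u n)) atTop (𝓝 1) →
      Tendsto (fun n => p (x - u n)) atTop (𝓝 1) →
      Tendsto (fun n => p (u n)) atTop (𝓝 0)) : False := by
  have hex : ∀ n : ℕ, ∃ ψ : E, p (y + ψ) ≤ p y + 1 / ((n : ℝ) + 1) ∧
      p (y - ψ) ≤ p y + 1 / ((n : ℝ) + 1) ∧ c / 2 ≤ p ψ := fun n => hyψ _ (by positivity)
  choose ψ h1 h2 h3 using hex
  set e : ℕ → ℝ := fun n => 1 / ((n : ℝ) + 1) with he
  have he0 : ∀ n, 0 < e n := fun n => by simp only [he]; positivity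
  have he1 : ∀ n, e n ≤ 1 := fun n => by
    simp only [he]
    rw [div_le_one (by positivity)]
    have : (0 : ℝ) ≤ n := Nat.cast_nonneg n
    linarith
  have helim : Tendsto e atTop (𝓝 0) := tendsto_one_div_add_atTop_nhds_zero_nat
  set x : E := (p y)⁻¹ • y with hx
  have hx1 : p x = 1 := by
    rw [hx, map_smul_eq_mul, Real.norm_of_nonneg (inv_nonneg.2 hy.le), inv_mul_cancel₀ hy.ne']
  let u : ℕ → E := fun n => (p y + e n)⁻¹ • ψ n
  have hpos : ∀ n, 0 < p y + e n := fun n => by have := he0 n; linarith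
  have hψle : ∀ n, p (ψ n) ≤ p y + e n := by
    intro n
    have h4 : ψ n = (1 / 2 : ℝ) • ((y + ψ n) - (y - ψ n)) := by module
    rw [h4, map_smul_eq_mul, Real.norm_of_nonneg (by norm_num)]
    have h5 := map_sub_le_add p (y + ψ n) (y - ψ n)
    have := h1 n
    have := h2 n
    simp only [he] at *
    linarith
  have hu1 : ∀ n, p (u n) ≤ 1 := by
    intro n
    show p ((p y + e n)⁻¹ • ψ n) ≤ 1
    rw [map_smul_eq_mul, Real.norm_of_nonneg (inv_nonneg.2 (hpos n).le), inv_mul_le_iff₀ (hpos n)]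
    linarith [hψle n]
  -- upper bound
  let U : ℕ → ℝ := fun n => 1 + (1 - (p y + e n)⁻¹ * p y)
  have hUlim : Tendsto U atTop (𝓝 1) := by
    have h4 : Tendsto (fun n => (p y + e n)⁻¹ * p y) atTop (𝓝 ((p y + 0)⁻¹ * p y)) :=
      ((helim.const_add (p y)).inv₀ (by rw [add_zero]; exact hy.ne')).mul_const _
    rw [add_zero, inv_mul_cancel₀ hy.ne'] at h4
    have h5 := (h4.const_sub 1).const_add 1
    rw [sub_self, add_zero] at h5
    exact h5
  have hcoef : ∀ n, 0 ≤ 1 - (p y + e n)⁻¹ * p y := by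
    intro n
    rw [sub_nonneg, inv_mul_le_iff₀ (hpos n)]
    have := he0 n
    linarith
  have hup : ∀ n (v : E), p (y + v) ≤ p y + e n → p (x + (p y + e n)⁻¹ • v) ≤ U n := by
    intro n v hv
    have h4 : x + (p y + e n)⁻¹ • v = (p y + e n)⁻¹ • (y + v) +
        (1 - (p y + e n)⁻¹ * p y) • x := by
      rw [hx, sub_smul, one_smul, smul_smul, mul_assoc, mul_inv_cancel₀ hy.ne', mul_one]
      module
    rw [h4]
    refine (map_add_le_add p _ _).trans ?_
    rw [map_smul_eq_mul, map_smul_eq_mul, hx1, mul_one,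
      Real.norm_of_nonneg (inv_nonneg.2 (hpos n).le), Real.norm_of_nonneg (hcoef n)]
    have h5 : (p y + e n)⁻¹ * p (y + v) ≤ 1 := by
      rw [inv_mul_le_iff₀ (hpos n)]; linarith
    show _ ≤ 1 + (1 - (p y + e n)⁻¹ * p y)
    linarith
  have hup1 : ∀ n, p (x + u n) ≤ U n := fun n => hup n (ψ n) (h1 n)
  have hup2 : ∀ n, p (x - u n) ≤ U n := by
    intro n
    have h4 : x - u n = x + (p y + e n)⁻¹ • (-ψ n) := by
      show x - (p y + e n)⁻¹ • ψ n = _
      module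
    rw [h4]
    apply hup n (-ψ n)
    rw [← sub_eq_add_neg]; exact h2 n
  have hsum : ∀ n, 2 ≤ p (x + u n) + p (x - u n) := by
    intro n
    have h4 : (2 : ℝ) • x = (x + u n) + (x - u n) := by module
    have h5 : p ((2 : ℝ) • x) = 2 := by
      rw [map_smul_eq_mul, hx1]; norm_num
    rw [← h5, h4]
    exact map_add_le_add p _ _
  have hlowlim : Tendsto (fun n => 2 - U n) atTop (𝓝 1) := by
    have := hUlim.const_sub 2
    norm_num at this
    exact this
  have ht1 : Tendsto (fun n => p (x + u n)) atTop (𝓝 1) :=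
    tendsto_of_tendsto_of_tendsto_of_le_of_le hlowlim hUlim
      (fun n => by have := hup2 n; have := hsum n; show 2 - U n ≤ _; linarith) hup1
  have ht2 : Tendsto (fun n => p (x - u n)) atTop (𝓝 1) :=
    tendsto_of_tendsto_of_tendsto_of_le_of_le hlowlim hUlim
      (fun n => by have := hup1 n; have := hsum n; show 2 - U n ≤ _; linarith) hup2
  have ht3 := hmlur x hx1 u hu1 ht1 ht2
  have hlow : ∀ n, (p y + 1)⁻¹ * (c / 2) ≤ p (u n) := by
    intro n
    show _ ≤ p ((p y + e n)⁻¹ • ψ n)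
    rw [map_smul_eq_mul, Real.norm_of_nonneg (inv_nonneg.2 (hpos n).le)]
    apply mul_le_mul _ (h3 n) (by positivity) (inv_nonneg.2 (hpos n).le)
    apply inv_anti₀ (hpos n)
    have := he1 n
    linarith
  have h4 := ge_of_tendsto' ht3 hlow
  have h5 : 0 < (p y + 1)⁻¹ * (c / 2) := by positivity
  linarith

theorem no_mlurZ (N : Seminorm ℝ (Z hKK)) {c C : ℝ} (hc : 0 < c) (hC : 0 < C)
    (hN : ∀ x : Z hKK, c * ‖x‖ ≤ N x ∧ N x ≤ C * ‖x‖)
    (hmlur : ∀ x : Z hKK, N x = 1 → ∀ u : ℕ → Z hKK, (∀ n, N (u n) ≤ 1) →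
      Tendsto (fun n => N (x + u n)) atTop (𝓝 1) →
      Tendsto (fun n => N (x - u n)) atTop (𝓝 1) →
      Tendsto (fun n => N (u n)) atTop (𝓝 0)) : False := by
  obtain ⟨C', hC', hup⟩ := Ns_upper hKK
  let p : Seminorm ℝ YD := N.comp (toYD hKK).symm.toLinearMap
  have hpe : ∀ y : YD, p y = N ((toYD hKK).symm y) := fun _ => rfl
  obtain ⟨y, hy, hψ⟩ := se_YD (p := p) (C := C * C') hc (by positivity) (by
    intro x
    rw [hpe]
    refine (hN _).2.trans ?_
    rw [mul_assoc]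
    exact mul_le_mul_of_nonneg_left (hup x) hC.le) (by
    intro x
    rw [hpe]
    refine le_trans ?_ (hN _).1
    exact mul_le_mul_of_nonneg_left (Ns_lower hKK x) hc.le)
  refine mlur_contra N hc ((toYD hKK).symm y) hy ?_ hmlur
  intro ε hε
  obtain ⟨ψ, h1, h2, h3⟩ := hψ ε hε
  refine ⟨(toYD hKK).symm ψ, ?_, ?_, h3⟩
  · rw [← map_add]; exact h1
  · rw [← map_sub]; exact h2

end Pool.Agent.H570.WS
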