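import Pool.Agent.H570.WS.Defs

set_option autoImplicit false

namespace Pool.Agent.H570.WS

open Set Filter Topology Pool.Agent.Helper570.Tree

/-- node part -/
noncomputable def nq (y : YD) : Node → ℝ := fun s => eP (.nd s) (y : Y)

theorem nq_le (y : YD) (s : Node) : |nq y s| ≤ ‖y‖ := abs_eP_le _ _

theorem hTN : ∀ a b c : Node, a ≤ c → b ≤ c → a ≤ b ∨ b ≤ a := fun _ _ _ => comparable

noncomputable def wk (k : ℕ) : ℝ := (1 / 2) ^ k / (2 * k + 1)

theorem wk_pos (k : ℕ) : 0 < wk k := by unfold wk; positivity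

theorem wk_sum : Summable fun k : ℕ => wk k * (2 * k + 1) := by
  have h : (fun k : ℕ => wk k * (2 * k + 1)) = fun k : ℕ => (1 / 2 : ℝ) ^ k := by
    funext k
    unfold wk
    have : (0 : ℝ) < 2 * k + 1 := by positivity
    field_simp
  rw [h]
  exact summable_geometric_of_lt_one (by norm_num) (by norm_num)

noncomputable def Kf (y : YD) : ℝ := ∑' k, wk k * V k (nq y)

/-- the facts on `Kf` used below -/
structure KFacts : Prop where
  nonneg : ∀ y, 0 ≤ Kf y
  le : ∀ y, Kf y ≤ 2 * ‖y‖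
  add : ∀ x y, Kf (x + y) ≤ Kf x + Kf y
  smul : ∀ (r : ℝ) y, Kf (r • y) = |r| * Kf y

variable (hK : KFacts)

noncomputable def Ks (hK : KFacts) : Seminorm ℝ YD :=
  Seminorm.of Kf hK.add (fun r y => by rw [Real.norm_eq_abs]; exact hK.smul r y)

noncomputable def Ns (hK : KFacts) : Seminorm ℝ YD := rot.comp YD.subtype + Ks hK

theorem Ns_apply (hK : KFacts) (y : YD) : Ns hK y = rot (y : Y) + Kf y := rfl

theorem Ns_lower (hK : KFacts) (y : YD) : ‖y‖ ≤ Ns hK y := by
  rw [Ns_apply, rot_apply]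
  have h1 := hK.nonneg y
  have h2 := norm_nonneg (JD (y : Y))
  have h3 : ‖y‖ = ‖(y : Y)‖ := rfl
  linarith

theorem Ns_upper (hK : KFacts) : ∃ C : ℝ, 0 < C ∧ ∀ y : YD, Ns hK y ≤ C * ‖y‖ := by
  obtain ⟨c, C, -, hC, h⟩ := rot_equiv
  refine ⟨C + 2, by linarith, fun y => ?_⟩
  rw [Ns_apply]
  have h1 := (h (y : Y)).2
  have h2 := hK.le y
  have h3 : ‖y‖ = ‖(y : Y)‖ := rfl
  rw [← h3] at h1
  linarith

theorem Ns_strict (hK : KFacts) (x y : YD) (hx : Ns hK x = 1) (hy : Ns hK y = 1) (hne : x ≠ y) :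
    Ns hK (x + y) ≠ 2 := by
  intro hxy
  have hK1 := hK.add x y
  rw [Ns_apply] at hx hy hxy
  have hr : rot ((x : Y) + (y : Y)) = rot (x : Y) + rot (y : Y) := by
    apply le_antisymm (map_add_le_add rot _ _)
    have h3 : ((x + y : YD) : Y) = (x : Y) + (y : Y) := rfl
    rw [h3] at hxy
    linarith
  rw [rot_apply, rot_apply, rot_apply] at hr
  have h1 := norm_add_le (x : Y) (y : Y)
  have h2 : ‖JD ((x : Y) + (y : Y))‖ ≤ ‖JD (x : Y)‖ + ‖JD (y : Y)‖ := by
    rw [map_add]; exact norm_add_le _ _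
  have h3 : ‖JD ((x : Y) + (y : Y))‖ = ‖JD (x : Y)‖ + ‖JD (y : Y)‖ := by linarith
  rw [map_add] at h3
  have h4 : SameRay ℝ (JD (x : Y)) (JD (y : Y)) := sameRay_iff_norm_add.2 h3
  have hz : ∀ z : YD, (z : Y) = 0 → Ns hK z = 0 := by
    intro z hz
    have : z = 0 := Subtype.ext hz
    rw [this, map_zero]
  rcases h4 with h5 | h5 | ⟨r1, r2, hr1, hr2, h5⟩
  · have h6 := hz x (JD_inj h5)
    rw [Ns_apply] at h6
    linarith
  · have h6 := hz y (JD_inj h5)
    rw [Ns_apply] at h6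
    linarith
  · have h6 : r1 • x = r2 • y := by
      apply Subtype.ext
      show r1 • (x : Y) = r2 • (y : Y)
      rw [← sub_eq_zero]
      apply JD_inj
      rw [map_sub, map_smul, map_smul, h5, sub_self]
    have h7 : r1 = r2 := by
      have e1 : Ns hK (r1 • x) = r1 := by
        rw [map_smul_eq_mul, Ns_apply, hx, mul_one, Real.norm_of_nonneg hr1.le]
      have e2 : Ns hK (r2 • y) = r2 := by
        rw [map_smul_eq_mul, Ns_apply, hy, mul_one, Real.norm_of_nonneg hr2.le]
      rw [← e1, ← e2, h6]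
    rw [h7] at h6
    exact hne (smul_right_injective YD hr2.ne' h6)

/-- the space with the new norm -/
def Z (_ : KFacts) : Type := YD

noncomputable instance (hK : KFacts) : AddCommGroup (Z hK) := inferInstanceAs (AddCommGroup YD)

noncomputable instance (hK : KFacts) : Module ℝ (Z hK) := inferInstanceAs (Module ℝ YD)

noncomputable def gpn (hK : KFacts) : AddGroupNorm (Z hK) where
  toFun := fun z => Ns hK z
  map_zero' := map_zero (Ns hK)
  add_le' := fun x y => map_add_le_add (Ns hK) x y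
  neg' := fun x => map_neg_eq_map (Ns hK) x
  eq_zero_of_map_eq_zero' := fun x hx => by
    have h1 := Ns_lower hK x
    have h2 : Ns hK x = 0 := hx
    rw [h2] at h1
    exact norm_le_zero_iff.1 h1

noncomputable instance instN (hK : KFacts) : NormedAddCommGroup (Z hK) :=
  (gpn hK).toNormedAddCommGroup

theorem norm_Z (hK : KFacts) (z : Z hK) : ‖z‖ = Ns hK z := rfl

noncomputable instance instNS (hK : KFacts) : NormedSpace ℝ (Z hK) where
  norm_smul_le := fun r x => (map_smul_eq_mul (Ns hK) r x).le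

/-- the identity map -/
noncomputable def toYD (hK : KFacts) : Z hK ≃ₗ[ℝ] YD := LinearEquiv.refl ℝ YD

theorem norm_toYD (hK : KFacts) (z : Z hK) : ‖toYD hK z‖ ≤ ‖z‖ := Ns_lower hK z

end Pool.Agent.H570.WS
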